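import Mathlib

set_option autoImplicit false

namespace Pool.Agent.H16.BS2

/-! Real inequalities used for block size two. -/

theorem num_box (N K a b m D : ℝ) (hN : 0 ≤ N) (ha : 0 ≤ a) (hKb : 0 ≤ K - b) (h1 : a ≤ m) (h2 : m ≤ b)
    (h : N * (K - m) ^ 3 * m ^ 2 ≤ D) (hc : D < N * (K - b) ^ 3 * a ^ 2) : False := by
  have k1 : (K - b) ^ 3 ≤ (K - m) ^ 3 := pow_le_pow_left₀ hKb (by linarith) 3
  have k2 : a ^ 2 ≤ m ^ 2 := pow_le_pow_left₀ ha h1 2
  have k3 : (K - b) ^ 3 * a ^ 2 ≤ (K - m) ^ 3 * m ^ 2 :=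
    mul_le_mul k1 k2 (by positivity) (le_trans (pow_nonneg hKb 3) k1)
  have k4 : N * ((K - b) ^ 3 * a ^ 2) ≤ N * ((K - m) ^ 3 * m ^ 2) := mul_le_mul_of_nonneg_left k3 hN
  have e1 : N * ((K - b) ^ 3 * a ^ 2) = N * (K - b) ^ 3 * a ^ 2 := by ring
  have e2 : N * ((K - m) ^ 3 * m ^ 2) = N * (K - m) ^ 3 * m ^ 2 := by ring
  linarith

theorem num_low (N K a m D : ℝ) (hN : 0 ≤ N) (hKa : 0 ≤ K - a) (h : N * (K - m) ^ 2 ≤ D)
    (hc : D < N * (K - a) ^ 2) : a ≤ m := by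
  by_contra hcon
  have hcon' : m < a := lt_of_not_ge hcon
  have k1 : (K - a) ^ 2 ≤ (K - m) ^ 2 := pow_le_pow_left₀ hKa (by linarith) 2
  have k4 : N * (K - a) ^ 2 ≤ N * (K - m) ^ 2 := mul_le_mul_of_nonneg_left k1 hN
  linarith

theorem num_1 (m : ℝ) (hm1 : m ≤ 6)
    (h1 : (5 : ℝ) * (1317 / 100 - m) ^ 2 ≤ 108)
    (h2 : (5 : ℝ) * (1317 / 100 - m) ^ 3 * m ^ 2 ≤ 13824) : False := by
  have c0 : (4261 / 500 : ℝ) ≤ m :=
    num_low 5 (1317 / 100) (4261 / 500) m 108 (by norm_num) (by norm_num) h1 (by norm_num)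
  linarith

theorem num_2 (m : ℝ) (hm1 : m ≤ 8)
    (h1 : (10 : ℝ) * (1417 / 100 - m) ^ 2 ≤ 768)
    (h2 : (10 : ℝ) * (1417 / 100 - m) ^ 3 * m ^ 2 ≤ 131072) : False := by
  have c0 : (2703 / 500 : ℝ) ≤ m :=
    num_low 10 (1417 / 100) (2703 / 500) m 768 (by norm_num) (by norm_num) h1 (by norm_num)
  rcases le_or_gt m (3257 / 500) with g1 | g1
  · exact num_box 10 (1417 / 100) (2703 / 500) (3257 / 500) m 131072 (by norm_num) (by norm_num) (by norm_num) c0 g1 h2 (by norm_num)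
  rcases le_or_gt m (7409 / 1000) with g2 | g2
  · exact num_box 10 (1417 / 100) (3257 / 500) (7409 / 1000) m 131072 (by norm_num) (by norm_num) (by norm_num) g1.le g2 h2 (by norm_num)
  rcases le_or_gt m (1593 / 200) with g3 | g3
  · exact num_box 10 (1417 / 100) (7409 / 1000) (1593 / 200) m 131072 (by norm_num) (by norm_num) (by norm_num) g2.le g3 h2 (by norm_num)
  exact num_box 10 (1417 / 100) (1593 / 200) (8) m 131072 (by norm_num) (by norm_num) (by norm_num) g3.le hm1 h2 (by norm_num)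

theorem num_3 (m : ℝ) (hm1 : m ≤ 10)
    (h1 : (17 : ℝ) * (1717 / 100 - m) ^ 2 ≤ 2700)
    (h2 : (17 : ℝ) * (1717 / 100 - m) ^ 3 * m ^ 2 ≤ 576000) : False := by
  have c0 : (4567 / 1000 : ℝ) ≤ m :=
    num_low 17 (1717 / 100) (4567 / 1000) m 2700 (by norm_num) (by norm_num) h1 (by norm_num)
  rcases le_or_gt m (5413 / 1000) with g1 | g1
  · exact num_box 17 (1717 / 100) (4567 / 1000) (5413 / 1000) m 576000 (by norm_num) (by norm_num) (by norm_num) c0 g1 h2 (by norm_num)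
  rcases le_or_gt m (834 / 125) with g2 | g2
  · exact num_box 17 (1717 / 100) (5413 / 1000) (834 / 125) m 576000 (by norm_num) (by norm_num) (by norm_num) g1.le g2 h2 (by norm_num)
  rcases le_or_gt m (4019 / 500) with g3 | g3
  · exact num_box 17 (1717 / 100) (834 / 125) (4019 / 500) m 576000 (by norm_num) (by norm_num) (by norm_num) g2.le g3 h2 (by norm_num)
  rcases le_or_gt m (1138 / 125) with g4 | g4
  · exact num_box 17 (1717 / 100) (4019 / 500) (1138 / 125) m 576000 (by norm_num) (by norm_num) (by norm_num) g3.le g4 h2 (by norm_num)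
  rcases le_or_gt m (9747 / 1000) with g5 | g5
  · exact num_box 17 (1717 / 100) (1138 / 125) (9747 / 1000) m 576000 (by norm_num) (by norm_num) (by norm_num) g4.le g5 h2 (by norm_num)
  exact num_box 17 (1717 / 100) (9747 / 1000) (10) m 576000 (by norm_num) (by norm_num) (by norm_num) g5.le hm1 h2 (by norm_num)

theorem num_4 (m : ℝ) (hm1 : m ≤ 12)
    (h1 : (26 : ℝ) * (2067 / 100 - m) ^ 2 ≤ 6912)
    (h2 : (26 : ℝ) * (2067 / 100 - m) ^ 3 * m ^ 2 ≤ 1769472) : False := by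
  have c0 : (873 / 200 : ℝ) ≤ m :=
    num_low 26 (2067 / 100) (873 / 200) m 6912 (by norm_num) (by norm_num) h1 (by norm_num)
  rcases le_or_gt m (2691 / 500) with g1 | g1
  · exact num_box 26 (2067 / 100) (873 / 200) (2691 / 500) m 1769472 (by norm_num) (by norm_num) (by norm_num) c0 g1 h2 (by norm_num)
  rcases le_or_gt m (3687 / 500) with g2 | g2
  · exact num_box 26 (2067 / 100) (2691 / 500) (3687 / 500) m 1769472 (by norm_num) (by norm_num) (by norm_num) g1.le g2 h2 (by norm_num)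
  rcases le_or_gt m (2473 / 250) with g3 | g3
  · exact num_box 26 (2067 / 100) (3687 / 500) (2473 / 250) m 1769472 (by norm_num) (by norm_num) (by norm_num) g2.le g3 h2 (by norm_num)
  rcases le_or_gt m (1476 / 125) with g4 | g4
  · exact num_box 26 (2067 / 100) (2473 / 250) (1476 / 125) m 1769472 (by norm_num) (by norm_num) (by norm_num) g3.le g4 h2 (by norm_num)
  exact num_box 26 (2067 / 100) (1476 / 125) (12) m 1769472 (by norm_num) (by norm_num) (by norm_num) g4.le hm1 h2 (by norm_num)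

theorem num_5 (m : ℝ) (hm1 : m ≤ 14)
    (h1 : (37 : ℝ) * (2437 / 100 - m) ^ 2 ≤ 14700)
    (h2 : (37 : ℝ) * (2437 / 100 - m) ^ 3 * m ^ 2 ≤ 4390400) : False := by
  have c0 : (4437 / 1000 : ℝ) ≤ m :=
    num_low 37 (2437 / 100) (4437 / 1000) m 14700 (by norm_num) (by norm_num) h1 (by norm_num)
  rcases le_or_gt m (617 / 100) with g1 | g1
  · exact num_box 37 (2437 / 100) (4437 / 1000) (617 / 100) m 4390400 (by norm_num) (by norm_num) (by norm_num) c0 g1 h2 (by norm_num)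
  rcases le_or_gt m (9761 / 1000) with g2 | g2
  · exact num_box 37 (2437 / 100) (617 / 100) (9761 / 1000) m 4390400 (by norm_num) (by norm_num) (by norm_num) g1.le g2 h2 (by norm_num)
  rcases le_or_gt m (1361 / 100) with g3 | g3
  · exact num_box 37 (2437 / 100) (9761 / 1000) (1361 / 100) m 4390400 (by norm_num) (by norm_num) (by norm_num) g2.le g3 h2 (by norm_num)
  exact num_box 37 (2437 / 100) (1361 / 100) (14) m 4390400 (by norm_num) (by norm_num) (by norm_num) g3.le hm1 h2 (by norm_num)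

theorem num_6 (m : ℝ) (hm1 : m ≤ 16)
    (h1 : (50 : ℝ) * (2817 / 100 - m) ^ 2 ≤ 27648)
    (h2 : (50 : ℝ) * (2817 / 100 - m) ^ 3 * m ^ 2 ≤ 9437184) : False := by
  have c0 : (2327 / 500 : ℝ) ≤ m :=
    num_low 50 (2817 / 100) (2327 / 500) m 27648 (by norm_num) (by norm_num) h1 (by norm_num)
  rcases le_or_gt m (759 / 100) with g1 | g1
  · exact num_box 50 (2817 / 100) (2327 / 500) (759 / 100) m 9437184 (by norm_num) (by norm_num) (by norm_num) c0 g1 h2 (by norm_num)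
  rcases le_or_gt m (3329 / 250) with g2 | g2
  · exact num_box 50 (2817 / 100) (759 / 100) (3329 / 250) m 9437184 (by norm_num) (by norm_num) (by norm_num) g1.le g2 h2 (by norm_num)
  exact num_box 50 (2817 / 100) (3329 / 250) (16) m 9437184 (by norm_num) (by norm_num) (by norm_num) g2.le hm1 h2 (by norm_num)

theorem num_7 (m : ℝ) (hm1 : m ≤ 18)
    (h1 : (65 : ℝ) * (22419 / 700 - m) ^ 2 ≤ 47628)
    (h2 : (65 : ℝ) * (22419 / 700 - m) ^ 3 * m ^ 2 ≤ 18289152) : False := by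
  have c0 : (2479 / 500 : ℝ) ≤ m :=
    num_low 65 (22419 / 700) (2479 / 500) m 47628 (by norm_num) (by norm_num) h1 (by norm_num)
  rcases le_or_gt m (9489 / 1000) with g1 | g1
  · exact num_box 65 (22419 / 700) (2479 / 500) (9489 / 1000) m 18289152 (by norm_num) (by norm_num) (by norm_num) c0 g1 h2 (by norm_num)
  rcases le_or_gt m (8703 / 500) with g2 | g2
  · exact num_box 65 (22419 / 700) (9489 / 1000) (8703 / 500) m 18289152 (by norm_num) (by norm_num) (by norm_num) g1.le g2 h2 (by norm_num)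
  exact num_box 65 (22419 / 700) (8703 / 500) (18) m 18289152 (by norm_num) (by norm_num) (by norm_num) g2.le hm1 h2 (by norm_num)

theorem num_8 (m : ℝ) (hm1 : m ≤ 20)
    (h1 : (82 : ℝ) * (898 / 25 - m) ^ 2 ≤ 76800)
    (h2 : (82 : ℝ) * (898 / 25 - m) ^ 3 * m ^ 2 ≤ 32768000) : False := by
  have c0 : (1329 / 250 : ℝ) ≤ m :=
    num_low 82 (898 / 25) (1329 / 250) m 76800 (by norm_num) (by norm_num) h1 (by norm_num)
  rcases le_or_gt m (11737 / 1000) with g1 | g1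
  · exact num_box 82 (898 / 25) (1329 / 250) (11737 / 1000) m 32768000 (by norm_num) (by norm_num) (by norm_num) c0 g1 h2 (by norm_num)
  exact num_box 82 (898 / 25) (11737 / 1000) (20) m 32768000 (by norm_num) (by norm_num) (by norm_num) g1.le hm1 h2 (by norm_num)

theorem num_9 (m : ℝ) (hm1 : m ≤ 22)
    (h1 : (101 : ℝ) * (11951 / 300 - m) ^ 2 ≤ 117612)
    (h2 : (101 : ℝ) * (11951 / 300 - m) ^ 3 * m ^ 2 ≤ 55199232) : False := by
  have c0 : (714 / 125 : ℝ) ≤ m :=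
    num_low 101 (11951 / 300) (714 / 125) m 117612 (by norm_num) (by norm_num) h1 (by norm_num)
  rcases le_or_gt m (14249 / 1000) with g1 | g1
  · exact num_box 101 (11951 / 300) (714 / 125) (14249 / 1000) m 55199232 (by norm_num) (by norm_num) (by norm_num) c0 g1 h2 (by norm_num)
  exact num_box 101 (11951 / 300) (14249 / 1000) (22) m 55199232 (by norm_num) (by norm_num) (by norm_num) g1.le hm1 h2 (by norm_num)

theorem num_10 (m : ℝ) (hm1 : m ≤ 24)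
    (h1 : (122 : ℝ) * (4377 / 100 - m) ^ 2 ≤ 172800)
    (h2 : (122 : ℝ) * (4377 / 100 - m) ^ 3 * m ^ 2 ≤ 88473600) : False := by
  have c0 : (3067 / 500 : ℝ) ≤ m :=
    num_low 122 (4377 / 100) (3067 / 500) m 172800 (by norm_num) (by norm_num) h1 (by norm_num)
  rcases le_or_gt m (16957 / 1000) with g1 | g1
  · exact num_box 122 (4377 / 100) (3067 / 500) (16957 / 1000) m 88473600 (by norm_num) (by norm_num) (by norm_num) c0 g1 h2 (by norm_num)
  exact num_box 122 (4377 / 100) (16957 / 1000) (24) m 88473600 (by norm_num) (by norm_num) (by norm_num) g1.le hm1 h2 (by norm_num)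

theorem num_11 (m : ℝ) (hm1 : m ≤ 26)
    (h1 : (145 : ℝ) * (52487 / 1100 - m) ^ 2 ≤ 245388)
    (h2 : (145 : ℝ) * (52487 / 1100 - m) ^ 3 * m ^ 2 ≤ 136108544) : False := by
  have c0 : (6577 / 1000 : ℝ) ≤ m :=
    num_low 145 (52487 / 1100) (6577 / 1000) m 245388 (by norm_num) (by norm_num) h1 (by norm_num)
  rcases le_or_gt m (19821 / 1000) with g1 | g1
  · exact num_box 145 (52487 / 1100) (6577 / 1000) (19821 / 1000) m 136108544 (by norm_num) (by norm_num) (by norm_num) c0 g1 h2 (by norm_num)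
  exact num_box 145 (52487 / 1100) (19821 / 1000) (26) m 136108544 (by norm_num) (by norm_num) (by norm_num) g1.le hm1 h2 (by norm_num)

theorem num_12 (m : ℝ) (hm1 : m ≤ 28)
    (h1 : (170 : ℝ) * (5167 / 100 - m) ^ 2 ≤ 338688)
    (h2 : (170 : ℝ) * (5167 / 100 - m) ^ 3 * m ^ 2 ≤ 202309632) : False := by
  have c0 : (1407 / 200 : ℝ) ≤ m :=
    num_low 170 (5167 / 100) (1407 / 200) m 338688 (by norm_num) (by norm_num) h1 (by norm_num)
  rcases le_or_gt m (4561 / 200) with g1 | g1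
  · exact num_box 170 (5167 / 100) (1407 / 200) (4561 / 200) m 202309632 (by norm_num) (by norm_num) (by norm_num) c0 g1 h2 (by norm_num)
  exact num_box 170 (5167 / 100) (4561 / 200) (28) m 202309632 (by norm_num) (by norm_num) (by norm_num) g1.le hm1 h2 (by norm_num)

theorem num_big (x m : ℝ) (hx : 13 ≤ x) (hm0 : 0 ≤ m) (hm1 : m ≤ 2 * x + 4)
    (h1 : (x ^ 2 + 2 * x + 2) * (4 * x + 3.17 + 6 / x - m) ^ 2 ≤ 12 * x ^ 2 * (x + 2) ^ 2)
    (h2 : (x ^ 2 + 2 * x + 2) * (4 * x + 3.17 + 6 / x - m) ^ 3 * m ^ 2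
      ≤ 512 * x ^ 2 * (x + 2) ^ 3) : False := by
  have hx0 : 0 < x := by linarith
  have hy : 0 < 6 / x := by positivity
  obtain ⟨X, hX⟩ : ∃ X : ℝ, X = 4 * x + 3.17 + 6 / x - m := ⟨_, rfl⟩
  rw [← hX] at h1 h2
  have hX1 : 4 * x + 3.17 - m ≤ X := by rw [hX]; linarith
  have hX0 : 0 ≤ X := by norm_num at hX1; linarith
  have hXX : x * (x + 2) * X ^ 2 ≤ (x ^ 2 + 2 * x + 2) * X ^ 2 :=
    mul_le_mul_of_nonneg_right (by nlinarith) (sq_nonneg X)
  have g1 : X ^ 2 ≤ 12 * (x * (x + 2)) := by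
    have : x * (x + 2) * X ^ 2 ≤ x * (x + 2) * (12 * (x * (x + 2))) := by
      calc x * (x + 2) * X ^ 2 ≤ _ := hXX
        _ ≤ _ := h1
        _ = _ := by ring
    exact le_of_mul_le_mul_left this (by positivity)
  have g2 : X ≤ 3.4642 * (x + 1) := by
    by_contra hcon
    have hcon' : 3.4642 * (x + 1) < X := lt_of_not_ge hcon
    have : (3.4642 * (x + 1)) ^ 2 ≤ X ^ 2 := pow_le_pow_left₀ (by positivity) hcon'.le 2
    nlinarith
  have g3 : X ^ 3 * m ^ 2 ≤ 512 * x * (x + 2) ^ 2 := by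
    have h3 : 0 ≤ X ^ 3 * m ^ 2 := by positivity
    have h4 : x * (x + 2) * (X ^ 3 * m ^ 2) ≤ (x ^ 2 + 2 * x + 2) * (X ^ 3 * m ^ 2) :=
      mul_le_mul_of_nonneg_right (by nlinarith) h3
    have : x * (x + 2) * (X ^ 3 * m ^ 2) ≤ x * (x + 2) * (512 * x * (x + 2) ^ 2) := by
      calc x * (x + 2) * (X ^ 3 * m ^ 2) ≤ _ := h4
        _ = (x ^ 2 + 2 * x + 2) * X ^ 3 * m ^ 2 := by ring
        _ ≤ _ := h2
        _ = _ := by ring
    exact le_of_mul_le_mul_left this (by positivity)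
  have key : ∀ A B : ℝ, 0 ≤ A → 0 ≤ B → A ≤ X → B ≤ m → 512 * x * (x + 2) ^ 2 < A ^ 3 * B ^ 2 → False := by
    intro A B hA hB h3 h4 h5
    have k1 : A ^ 3 ≤ X ^ 3 := pow_le_pow_left₀ hA h3 3
    have k2 : B ^ 2 ≤ m ^ 2 := pow_le_pow_left₀ hB h4 2
    have k3 : A ^ 3 * B ^ 2 ≤ X ^ 3 * m ^ 2 := mul_le_mul k1 k2 (by positivity) (by positivity)
    linarith
  obtain ⟨j, hj⟩ : ∃ j : ℝ, j = x - 13 := ⟨_, rfl⟩
  have hj0 : 0 ≤ j := by linarith
  have hxj : x = j + 13 := by linarith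
  norm_num at g2 hX1
  rcases le_or_gt m x with b1 | b1
  · refine key (3 * x + 3.17) (0.5358 * x - 0.2943) (by positivity) (by linarith) (by norm_num; linarith)
      (by norm_num; linarith) ?_
    rw [hxj, ← sub_pos]
    ring_nf
    positivity
  rcases le_or_gt m (1.5 * x) with b2 | b2
  · refine key (2.5 * x + 3.17) x (by positivity) hx0.le (by norm_num at b2 ⊢; linarith) b1.le ?_
    rw [hxj, ← sub_pos]
    ring_nf
    positivity
  · refine key (2 * x - 0.83) (1.5 * x) (by linarith) (by positivity) (by norm_num; linarith) b2.le ?_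
    rw [hxj, ← sub_pos]
    ring_nf
    positivity

theorem num (n : ℕ) (hn : 1 ≤ n) (m : ℝ) (hm0 : 0 ≤ m) (hm1 : m ≤ 2 * n + 4)
    (h1 : ((n : ℝ) ^ 2 + 2 * n + 2) * (4 * n + 3.17 + 6 / n - m) ^ 2 ≤ 12 * n ^ 2 * (n + 2) ^ 2)
    (h2 : ((n : ℝ) ^ 2 + 2 * n + 2) * (4 * n + 3.17 + 6 / n - m) ^ 3 * m ^ 2
      ≤ 512 * n ^ 2 * (n + 2) ^ 3) : False := by
  rcases le_or_gt 13 n with hn13 | hn13
  · exact num_big n m (by exact_mod_cast hn13) hm0 hm1 h1 h2
  · interval_cases n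
    · exact num_1 m (by norm_num at hm1 ⊢; linarith) (by norm_num at h1 ⊢; linarith) (by norm_num at h2 ⊢; linarith)
    · exact num_2 m (by norm_num at hm1 ⊢; linarith) (by norm_num at h1 ⊢; linarith) (by norm_num at h2 ⊢; linarith)
    · exact num_3 m (by norm_num at hm1 ⊢; linarith) (by norm_num at h1 ⊢; linarith) (by norm_num at h2 ⊢; linarith)
    · exact num_4 m (by norm_num at hm1 ⊢; linarith) (by norm_num at h1 ⊢; linarith) (by norm_num at h2 ⊢; linarith)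
    · exact num_5 m (by norm_num at hm1 ⊢; linarith) (by norm_num at h1 ⊢; linarith) (by norm_num at h2 ⊢; linarith)
    · exact num_6 m (by norm_num at hm1 ⊢; linarith) (by norm_num at h1 ⊢; linarith) (by norm_num at h2 ⊢; linarith)
    · exact num_7 m (by norm_num at hm1 ⊢; linarith) (by norm_num at h1 ⊢; linarith) (by norm_num at h2 ⊢; linarith)
    · exact num_8 m (by norm_num at hm1 ⊢; linarith) (by norm_num at h1 ⊢; linarith) (by norm_num at h2 ⊢; linarith)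
    · exact num_9 m (by norm_num at hm1 ⊢; linarith) (by norm_num at h1 ⊢; linarith) (by norm_num at h2 ⊢; linarith)
    · exact num_10 m (by norm_num at hm1 ⊢; linarith) (by norm_num at h1 ⊢; linarith) (by norm_num at h2 ⊢; linarith)
    · exact num_11 m (by norm_num at hm1 ⊢; linarith) (by norm_num at h1 ⊢; linarith) (by norm_num at h2 ⊢; linarith)
    · exact num_12 m (by norm_num at hm1 ⊢; linarith) (by norm_num at h1 ⊢; linarith) (by norm_num at h2 ⊢; linarith)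

theorem real1 (r v : ℕ) (hr : 3 ≤ r) (hv : 3 ≤ v) (α β A m : ℝ) (hα : 0 ≤ α) (hβ : 0 ≤ β)
    (hm0 : 0 ≤ m) (hm1 : m ≤ 2 * r) (hm2 : m ^ 2 ≤ 8 * r * α)
    (h1 : α ^ 2 + β ^ 2 ≤ A) (h2 : (v : ℝ) * α ^ 2 ≤ (v - 1) * A)
    (h3 : (((v : ℝ) - 1) / v) ^ 2 * (4 / ((r : ℝ) - 2) ^ 2 + 4 / (r : ℝ) ^ 2) ≤ A)
    (h4 : 2 / ((r : ℝ) - 2) ≤ α + β)
    (main : 4 * r * A + 3 * (α + β) * A ≤ m * A + 4 * α * (α + β + 2)) : False := by
  obtain ⟨n, rfl⟩ : ∃ n : ℕ, r = n + 2 := ⟨r - 2, by omega⟩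
  have hn : 1 ≤ n := by omega
  have hnr : (1 : ℝ) ≤ n := by exact_mod_cast hn
  have hn0 : (0 : ℝ) < n := by linarith
  have hvr : (3 : ℝ) ≤ v := by exact_mod_cast hv
  have hv0 : (0 : ℝ) < v := by linarith
  have er : (((n + 2 : ℕ) : ℝ)) = (n : ℝ) + 2 := by push_cast; ring
  rw [er] at hm1 hm2 h3 h4 main
  have e2 : (n : ℝ) + 2 - 2 = n := by ring
  rw [e2] at h3 h4
  set p : ℝ := ((v : ℝ) - 1) / v with hp
  set l : ℝ := 4 / (n : ℝ) ^ 2 + 4 / ((n : ℝ) + 2) ^ 2 with hl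
  have hl0 : 0 < l := by positivity
  have hp23 : 2 / 3 ≤ p := by
    rw [hp, div_le_div_iff₀ (by norm_num) hv0]; linarith
  have hp0 : 0 < p := by linarith
  have hA1 : 4 / 9 * l ≤ A := by
    have : 4 / 9 * l ≤ p ^ 2 * l := by
      apply mul_le_mul_of_nonneg_right _ hl0.le
      nlinarith
    linarith
  have hA0 : 0 < A := by
    have : 0 < 4 / 9 * l := by positivity
    linarith
  have hαp : α ^ 2 ≤ p * A := by
    have : (v : ℝ) * α ^ 2 ≤ (v : ℝ) * (p * A) := by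
      have e : (v : ℝ) * (p * A) = ((v : ℝ) - 1) * A := by
        rw [hp]; field_simp
      rw [e]; exact h2
    exact le_of_mul_le_mul_left this hv0
  have hA3 : l * α ^ 4 ≤ A ^ 3 := by
    have q1 : α ^ 4 ≤ (p * A) ^ 2 := by
      calc α ^ 4 = (α ^ 2) ^ 2 := by ring
        _ ≤ (p * A) ^ 2 := pow_le_pow_left₀ (by positivity) hαp 2
    calc l * α ^ 4 ≤ l * (p * A) ^ 2 := mul_le_mul_of_nonneg_left q1 hl0.le
      _ = (p ^ 2 * l) * A ^ 2 := by ring
      _ ≤ A * A ^ 2 := mul_le_mul_of_nonneg_right h3 (by positivity)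
      _ = A ^ 3 := by ring
  have h483 : 4 * α * (α + β) ≤ 4.83 * A := by
    have : 4 * α * (α + β) ≤ 4.83 * (α ^ 2 + β ^ 2) := by
      nlinarith [sq_nonneg (83 * α - 200 * β), sq_nonneg β]
    linarith
  set X : ℝ := 4 * n + 3.17 + 6 / n - m with hX
  have hXpos : 0 < X := by
    have : 0 < 6 / (n : ℝ) := by positivity
    rw [hX]; norm_num; linarith
  have hXA : X * A ≤ 8 * α := by
    have h6 : 6 / (n : ℝ) * A ≤ 3 * (α + β) * A := by
      apply mul_le_mul_of_nonneg_right _ hA0.le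
      have : 6 / (n : ℝ) = 3 * (2 / (n : ℝ)) := by ring
      rw [this]; linarith
    have e : X * A = 4 * ((n : ℝ) + 2) * A + 6 / n * A - m * A - 4.83 * A := by
      rw [hX]; ring
    rw [e]
    have e' : 4 * α * (α + β + 2) = 4 * α * (α + β) + 8 * α := by ring
    rw [e'] at main
    linarith
  have hα0 : 0 < α := by
    have : 0 < X * A := mul_pos hXpos hA0
    linarith
  have h512 : X ^ 3 * l * α ≤ 512 := by
    have q1 : (X * A) ^ 3 ≤ (8 * α) ^ 3 := pow_le_pow_left₀ (by positivity) hXA 3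
    have q2 : X ^ 3 * (l * α ^ 4) ≤ X ^ 3 * A ^ 3 := mul_le_mul_of_nonneg_left hA3 (by positivity)
    have q3 : (X ^ 3 * l * α) * α ^ 3 ≤ 512 * α ^ 3 := by nlinarith
    exact le_of_mul_le_mul_right q3 (by positivity)
  have hαX : X * l / 18 ≤ α := by
    have : X * (4 / 9 * l) ≤ X * A := mul_le_mul_of_nonneg_left hA1 hXpos.le
    linarith
  have h96 : X ^ 2 * l ≤ 96 := by
    have q1 : X ^ 3 * l * (X * l / 18) ≤ X ^ 3 * l * α := mul_le_mul_of_nonneg_left hαX (by positivity)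
    have q2 : (X ^ 2 * l) ^ 2 ≤ 96 ^ 2 := by
      have : (X ^ 2 * l) ^ 2 = 18 * (X ^ 3 * l * (X * l / 18)) := by ring
      rw [this]; linarith
    exact le_of_sq_le_sq q2 (by norm_num)
  have hl' : l * ((n : ℝ) ^ 2 * ((n : ℝ) + 2) ^ 2) = 8 * ((n : ℝ) ^ 2 + 2 * n + 2) := by
    rw [hl]; field_simp; ring
  have hD : 0 < (n : ℝ) ^ 2 * ((n : ℝ) + 2) ^ 2 := by positivity
  refine num n hn m hm0 (by linarith) ?_ ?_
  · have q1 : X ^ 2 * l * ((n : ℝ) ^ 2 * ((n : ℝ) + 2) ^ 2) ≤ 96 * ((n : ℝ) ^ 2 * ((n : ℝ) + 2) ^ 2) :=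
      mul_le_mul_of_nonneg_right h96 hD.le
    have q2 : X ^ 2 * l * ((n : ℝ) ^ 2 * ((n : ℝ) + 2) ^ 2) = X ^ 2 * (8 * ((n : ℝ) ^ 2 + 2 * n + 2)) := by
      rw [mul_assoc, hl']
    rw [q2] at q1
    rw [← hX]
    linarith
  · have q1 : X ^ 3 * l * m ^ 2 ≤ 8 * ((n : ℝ) + 2) * 512 := by
      have a1 : X ^ 3 * l * m ^ 2 ≤ X ^ 3 * l * (8 * ((n : ℝ) + 2) * α) :=
        mul_le_mul_of_nonneg_left hm2 (by positivity)
      have a2 : X ^ 3 * l * (8 * ((n : ℝ) + 2) * α) = 8 * ((n : ℝ) + 2) * (X ^ 3 * l * α) := by ring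
      have a3 : 8 * ((n : ℝ) + 2) * (X ^ 3 * l * α) ≤ 8 * ((n : ℝ) + 2) * 512 :=
        mul_le_mul_of_nonneg_left h512 (by positivity)
      linarith
    have q2 : X ^ 3 * l * m ^ 2 * ((n : ℝ) ^ 2 * ((n : ℝ) + 2) ^ 2)
        ≤ 8 * ((n : ℝ) + 2) * 512 * ((n : ℝ) ^ 2 * ((n : ℝ) + 2) ^ 2) :=
      mul_le_mul_of_nonneg_right q1 hD.le
    have q3 : X ^ 3 * l * m ^ 2 * ((n : ℝ) ^ 2 * ((n : ℝ) + 2) ^ 2)
        = X ^ 3 * m ^ 2 * (8 * ((n : ℝ) ^ 2 + 2 * n + 2)) := by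
      rw [← hl']; ring
    rw [q3] at q2
    rw [← hX]
    have q4 : 8 * ((n : ℝ) + 2) * 512 * ((n : ℝ) ^ 2 * ((n : ℝ) + 2) ^ 2)
        = 8 * (512 * (n : ℝ) ^ 2 * ((n : ℝ) + 2) ^ 3) := by ring
    rw [q4] at q2
    have q5 : X ^ 3 * m ^ 2 * (8 * ((n : ℝ) ^ 2 + 2 * n + 2))
        = 8 * (((n : ℝ) ^ 2 + 2 * n + 2) * X ^ 3 * m ^ 2) := by ring
    rw [q5] at q2
    linarith

theorem real05_aux (n α β A m e : ℝ) (hn : 3 ≤ n) (hα : 0 ≤ α) (hβ : 0 ≤ β)
    (hm0 : 0 ≤ m) (hm1 : m ≤ 2 * (n + 2)) (hm2 : m ^ 2 ≤ 8 * (n + 2) * α)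
    (h1 : α ^ 2 + β ^ 2 + e ^ 2 ≤ A) (he : 2 / n - β ≤ e)
    (main : 4 * (n + 2) * A ≤ m * A + 4 * α * (α + β + 2)) : False := by
  have hn0 : 0 < n := by linarith
  obtain ⟨t, ht⟩ : ∃ t : ℝ, t = 2 / n := ⟨_, rfl⟩
  rw [← ht] at he
  have ht0 : 0 < t := by rw [ht]; positivity
  have htn : t * n = 2 := by rw [ht]; field_simp
  obtain ⟨X, hX⟩ : ∃ X : ℝ, X = 4 * n + 3.17 - m := ⟨_, rfl⟩
  have hX0 : 0 < X := by rw [hX]; norm_num; linarith
  -- step 1
  have s1 : 4 * α * (α + β) ≤ 4.83 * A := by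
    nlinarith [sq_nonneg (0.83 * α - 2 * β), sq_nonneg e, sq_nonneg β]
  have s1' : X * A ≤ 8 * α := by
    rw [hX]; norm_num at s1 ⊢; nlinarith
  -- step 2
  have s2 : α ^ 2 + t ^ 2 / 2 ≤ A := by
    rcases le_or_gt t β with hb | hb
    · nlinarith [sq_nonneg e, sq_nonneg (β - t), mul_nonneg ht0.le (sub_nonneg.2 hb)]
    · have : (t - β) ^ 2 ≤ e ^ 2 := pow_le_pow_left₀ (by linarith) he 2
      nlinarith [sq_nonneg (2 * β - t)]
  have s3 : X * (α ^ 2 + t ^ 2 / 2) ≤ 8 * α := le_trans (mul_le_mul_of_nonneg_left s2 hX0.le) s1'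
  have hα0 : 0 < α := by
    have : 0 < X * (α ^ 2 + t ^ 2 / 2) := by positivity
    linarith
  have s4 : X ≤ 2.829 * n := by
    by_contra hcon
    have hcon' : 2.829 * n < X := lt_of_not_ge hcon
    have h5 : 2.829 * n * (α ^ 2 + t ^ 2 / 2) ≤ 8 * α :=
      le_trans (mul_le_mul_of_nonneg_right hcon'.le (by positivity)) s3
    -- multiply by n
    have h6 : 2.829 * (n ^ 2 * α ^ 2 + 2) ≤ 8 * (n * α) := by
      have h7 : n * (2.829 * n * (α ^ 2 + t ^ 2 / 2)) ≤ n * (8 * α) := mul_le_mul_of_nonneg_left h5 hn0.le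
      have h8 : n * (2.829 * n * (α ^ 2 + t ^ 2 / 2)) = 2.829 * (n ^ 2 * α ^ 2 + (t * n) ^ 2 / 2) := by ring
      rw [h8, htn] at h7
      norm_num at h7 ⊢
      linarith
    nlinarith [sq_nonneg (n * α - 1.41)]
  have s5 : X * α ≤ 8 := by
    have h5 : X * α * α ≤ 8 * α := by
      have : X * (α ^ 2 + t ^ 2 / 2) = X * α * α + X * (t ^ 2 / 2) := by ring
      have h6 : 0 ≤ X * (t ^ 2 / 2) := by positivity
      linarith
    exact le_of_mul_le_mul_right h5 hα0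
  have s6 : X * m ^ 2 ≤ 64 * (n + 2) := by
    calc X * m ^ 2 ≤ X * (8 * (n + 2) * α) := mul_le_mul_of_nonneg_left hm2 hX0.le
      _ = 8 * (n + 2) * (X * α) := by ring
      _ ≤ 8 * (n + 2) * 8 := mul_le_mul_of_nonneg_left s5 (by positivity)
      _ = _ := by ring
  obtain ⟨p, hp⟩ : ∃ p : ℝ, p = 1.171 * n + 3.17 := ⟨_, rfl⟩
  obtain ⟨K, hK⟩ : ∃ K : ℝ, K = 4 * n + 3.17 := ⟨_, rfl⟩
  have hpm : p ≤ m := by rw [hp]; rw [hX] at s4; norm_num at s4 ⊢; linarith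
  have hp0 : 0 < p := by rw [hp]; positivity
  have hmK : m ≤ 2 / 3 * K := by rw [hK]; norm_num; linarith
  have hpK : p ≤ 2 / 3 * K := le_trans hpm hmK
  have hXK : X = K - m := by rw [hX, hK]
  have s7 : (K - p) * p ^ 2 ≤ X * m ^ 2 := by
    rw [hXK]
    have k1 : 0 ≤ K * (m + p) - (m ^ 2 + m * p + p ^ 2) := by
      nlinarith [mul_nonneg hm0 (sub_nonneg.2 hmK), mul_nonneg hp0.le (sub_nonneg.2 hpK),
        mul_nonneg hm0 (sub_nonneg.2 hpK), mul_nonneg hp0.le (sub_nonneg.2 hmK)]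
    have k2 : 0 ≤ (m - p) * (K * (m + p) - (m ^ 2 + m * p + p ^ 2)) := mul_nonneg (by linarith) k1
    nlinarith
  have s8 : 64 * (n + 2) < (K - p) * p ^ 2 := by
    obtain ⟨j, hj⟩ : ∃ j : ℝ, j = n - 3 := ⟨_, rfl⟩
    have hj0 : 0 ≤ j := by linarith
    have hnj : n = j + 3 := by linarith
    rw [hK, hp, hnj, ← sub_pos]
    ring_nf
    positivity
  linarith

theorem real0_5 (r : ℕ) (hr : 5 ≤ r) (α β A m e : ℝ) (hα : 0 ≤ α) (hβ : 0 ≤ β)
    (hm0 : 0 ≤ m) (hm1 : m ≤ 2 * r) (hm2 : m ^ 2 ≤ 8 * r * α)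
    (h1 : α ^ 2 + β ^ 2 + e ^ 2 ≤ A) (he : 2 / ((r : ℝ) - 2) - β ≤ e)
    (main : 4 * r * A ≤ m * A + 4 * α * (α + β + 2)) : False := by
  have hr' : (5 : ℝ) ≤ r := by exact_mod_cast hr
  have e1 : ((r : ℝ) - 2) + 2 = r := by ring
  refine real05_aux ((r : ℝ) - 2) α β A m e (by linarith) hα hβ hm0 ?_ ?_ h1 he ?_
  · rw [e1]; exact hm1
  · rw [e1]; exact hm2
  · rw [e1]; exact main

theorem real0_4 (α β A m e f : ℝ) (hα : 0 ≤ α) (hβ : 0 ≤ β)
    (hm0 : 0 ≤ m) (hm1 : m ≤ 8) (hm2 : m ^ 2 ≤ 32 * α)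
    (h1 : α ^ 2 + β ^ 2 + e ^ 2 ≤ A) (he : 1 - β ≤ e)
    (h2 : α ^ 2 + β ^ 2 + f ^ 2 ≤ A) (hf : α - 1 / 2 ≤ f)
    (main : 16 * A ≤ m * A + 4 * α * (α + β + 2)) : False := by
  have hA : 0 ≤ A := by nlinarith [sq_nonneg α, sq_nonneg β, sq_nonneg e]
  rcases le_or_gt m 6.35 with hm | hm
  · have k1 : 9.65 * A ≤ 4 * α * (α + β + 2) := by
      nlinarith [mul_nonneg (sub_nonneg.2 hm) hA]
    rcases le_or_gt β 1 with hb | hb
    · have k2 : (1 - β) ^ 2 ≤ e ^ 2 := pow_le_pow_left₀ (by linarith) he 2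
      nlinarith [sq_nonneg (11.3 * α - 4 * β - 8), sq_nonneg (β - 0.5952)]
    · nlinarith [sq_nonneg (11.3 * α - 4 * β - 8), sq_nonneg (β - 1), sq_nonneg e]
  · have k1 : 8 * A ≤ 4 * α * (α + β + 2) := by
      nlinarith [mul_nonneg (sub_nonneg.2 hm1) hA]
    have k3 : (6.35 : ℝ) ^ 2 ≤ m ^ 2 := pow_le_pow_left₀ (by norm_num) hm.le 2
    have k4 : (1.26 : ℝ) ≤ α := by
      norm_num at k3 ⊢
      linarith
    have k2 : (α - 1 / 2) ^ 2 ≤ f ^ 2 := pow_le_pow_left₀ (by linarith) hf 2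
    have k5 : 0 ≤ (α - 1.26) * α := mul_nonneg (by linarith) hα
    nlinarith [sq_nonneg (β - α / 4), k5]

theorem real0_3 (α β A m f : ℝ) (hα : 0 ≤ α) (hβ : 3 / 2 ≤ β)
    (hm0 : 0 ≤ m) (hm1 : m ≤ 6)
    (h2 : α ^ 2 + β ^ 2 + f ^ 2 ≤ A) (hf : α - 2 / 3 ≤ f)
    (main : 12 * A ≤ m * A + 4 * α * (α + β + 2)) : False := by
  have hA : 0 ≤ A := by nlinarith [sq_nonneg α, sq_nonneg β, sq_nonneg f]
  have k1 : 6 * A ≤ 4 * α * (α + β + 2) := by
    nlinarith [mul_nonneg (sub_nonneg.2 hm1) hA]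
  rcases le_or_gt (2 / 3) α with ha | ha
  · have k2 : (α - 2 / 3) ^ 2 ≤ f ^ 2 := pow_le_pow_left₀ (by linarith) hf 2
    have k5 : 0 ≤ (β - 3 / 2) * β := mul_nonneg (by linarith) (by linarith)
    nlinarith [sq_nonneg (4 * α - β - 4), k5, sq_nonneg (β - 3 / 2)]
  · have k5 : 0 ≤ (2 / 3 - α) * β := mul_nonneg (by linarith) (by linarith)
    have k6 : 0 ≤ (2 / 3 - α) * α := mul_nonneg (by linarith) (by linarith)
    have k7 : 0 ≤ (β - 3 / 2) * β := mul_nonneg (by linarith) (by linarith)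
    nlinarith [sq_nonneg f]

end Pool.Agent.H16.BS2
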