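import Pool.Agent.H16.BS2.Main
import Pool.Agent.H16.BS2.Real

set_option autoImplicit false

namespace Pool.Agent.H16.BS2
open Matrix Finset Pool.Agent.H856R2

variable {V B : Type*} [Fintype V] [DecidableEq V] [Fintype B] [DecidableEq B]

section
variable (c : Ctx V B)

lemma p_du (x s a b : V) : c.p (du x s) (du a b) = (c.P *ᵥ du x s) a - (c.P *ᵥ du x s) b := by
  rw [← c.p_single, ← c.p_single, ← map_sub]; rfl

lemma loop_blk (hk : c.k = 2) (x : V) (y0 : B) (hy0 : c.n x y0 = 2) :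
    ∀ i, c.n i y0 = (if i = x then 1 else 0) + (if i = x then 1 else 0) := by
  obtain ⟨x', hx'⟩ := blk c hk x y0 (by omega)
  have h := hx' x
  rw [hy0, if_pos rfl] at h
  have : x = x' := by
    by_contra hcon
    rw [if_neg hcon] at h; omega
  subst this
  exact hx'

lemma loop_zt (hk : c.k = 2) (x : V) (y0 : B) (hy0 : c.n x y0 = 2) : c.zt x y0 = 0 := by
  rw [blk_zt c hk x y0 x (loop_blk c hk x y0 hy0)]; simp [du]

/-- a block through `s` with small drop -/
lemma nb_s (hk : c.k = 2) (x s : V) (hxs : x ≠ s) (hr : 1 ≤ c.r) :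
    ∃ t, 1 ≤ c.n s t ∧ c.p (du x s) (c.zt s t) ≤ 2 / c.r := by
  by_contra hcon
  push Not at hcon
  have hr' : (0 : ℝ) < c.r := by exact_mod_cast hr
  have h := sum_p_zt c (du x s) s
  rw [sum_du0, hk] at h
  have e : (du x s : V → ℝ) s = -1 := by
    rw [du_apply, if_neg hxs.symm, if_pos rfl]; norm_num
  rw [e] at h
  have h2 : ∑ t, (c.n s t : ℝ) * (2 / c.r) < ∑ t, (c.n s t : ℝ) * c.p (du x s) (c.zt s t) := by
    apply Finset.sum_lt_sum
    · intro t _
      rcases Nat.eq_zero_or_pos (c.n s t) with h | h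
      · simp [h]
      · exact mul_le_mul_of_nonneg_left (hcon t h).le (Nat.cast_nonneg _)
    · have h3 : ∃ t, 1 ≤ c.n s t := by
        by_contra hc
        push Not at hc
        have h4 := c.row s
        rw [Finset.sum_eq_zero (fun t _ => by have := hc t; omega)] at h4
        omega
      obtain ⟨t, ht⟩ := h3
      refine ⟨t, Finset.mem_univ t, ?_⟩
      have : (0 : ℝ) < c.n s t := by exact_mod_cast ht
      exact mul_lt_mul_of_pos_left (hcon t ht) this
  rw [← Finset.sum_mul, c.rowR, h] at h2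
  push_cast at h2
  have : (c.r : ℝ) * (2 / c.r) = 2 := by field_simp
  rw [this] at h2
  norm_num at h2

lemma sum_x (hk : c.k = 2) (x s : V) (hxs : x ≠ s) (y0 : B) (hy0 : c.n x y0 = 2) :
    ∑ t ∈ (Finset.univ : Finset B).erase y0, (c.n x t : ℝ) * c.p (du x s) (c.zt x t) = -2
    ∧ ∑ t ∈ (Finset.univ : Finset B).erase y0, (c.n x t : ℝ) = c.r - 2 := by
  have h := sum_p_zt c (du x s) x
  rw [sum_du0, hk] at h
  have e : (du x s : V → ℝ) x = 1 := by
    rw [du_apply, if_neg hxs, if_pos rfl]; norm_num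
  rw [e] at h
  have h1 := Finset.add_sum_erase (Finset.univ : Finset B)
    (fun t => (c.n x t : ℝ) * c.p (du x s) (c.zt x t)) (Finset.mem_univ y0)
  have h2 := Finset.add_sum_erase (Finset.univ : Finset B)
    (fun t => (c.n x t : ℝ)) (Finset.mem_univ y0)
  rw [c.rowR] at h2
  simp only [hy0] at h2
  simp only [loop_zt c hk x y0 hy0, map_zero, mul_zero, zero_add] at h1
  push_cast at h h2
  constructor
  · rw [h1, h]; norm_num
  · linarith

lemma r_ge (hk : c.k = 2) (x s : V) (hxs : x ≠ s) (y0 : B) (hy0 : c.n x y0 = 2) : 3 ≤ c.r := by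
  obtain ⟨h1, h2⟩ := sum_x c hk x s hxs y0 hy0
  by_contra hcon
  have hr : (c.r : ℝ) ≤ 2 := by exact_mod_cast (by omega : c.r ≤ 2)
  have h3 : ∑ t ∈ (Finset.univ : Finset B).erase y0, (c.n x t : ℝ) = 0 := by
    refine le_antisymm ?_ (Finset.sum_nonneg fun t _ => Nat.cast_nonneg _)
    rw [h2]; linarith
  have h4 := (Finset.sum_eq_zero_iff_of_nonneg (fun t _ => Nat.cast_nonneg _)).1 h3
  rw [Finset.sum_eq_zero (fun t ht => by rw [h4 t ht, zero_mul])] at h1
  norm_num at h1

/-- a block through `x` with large drop -/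
lemma nb_x (hk : c.k = 2) (x s : V) (hxs : x ≠ s) (y0 : B) (hy0 : c.n x y0 = 2) :
    ∃ t, t ≠ y0 ∧ 1 ≤ c.n x t ∧ c.p (du x s) (c.zt x t) ≤ -(2 / ((c.r : ℝ) - 2)) := by
  obtain ⟨h1, h2⟩ := sum_x c hk x s hxs y0 hy0
  have hr := r_ge c hk x s hxs y0 hy0
  have hr' : (3 : ℝ) ≤ c.r := by exact_mod_cast hr
  have hr2 : (0 : ℝ) < (c.r : ℝ) - 2 := by linarith
  by_contra hcon
  push Not at hcon
  have h3 : ∑ t ∈ (Finset.univ : Finset B).erase y0, (c.n x t : ℝ) * (-(2 / ((c.r : ℝ) - 2)))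
      < ∑ t ∈ (Finset.univ : Finset B).erase y0, (c.n x t : ℝ) * c.p (du x s) (c.zt x t) := by
    apply Finset.sum_lt_sum
    · intro t ht
      rcases Nat.eq_zero_or_pos (c.n x t) with h | h
      · simp [h]
      · exact mul_le_mul_of_nonneg_left (hcon t (Finset.ne_of_mem_erase ht) h).le
          (Nat.cast_nonneg _)
    · have h3 : ∃ t ∈ (Finset.univ : Finset B).erase y0, 1 ≤ c.n x t := by
        by_contra hc
        push Not at hc
        rw [Finset.sum_eq_zero (fun t ht => by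
          have := hc t ht
          have h0 : c.n x t = 0 := by omega
          rw [h0]; simp)] at h2
        linarith
      obtain ⟨t, ht0, ht⟩ := h3
      refine ⟨t, ht0, ?_⟩
      have : (0 : ℝ) < c.n x t := by exact_mod_cast ht
      exact mul_lt_mul_of_pos_left (hcon t (Finset.ne_of_mem_erase ht0) ht) this
  rw [← Finset.sum_mul, h1, h2] at h3
  have : ((c.r : ℝ) - 2) * (-(2 / ((c.r : ℝ) - 2))) = -2 := by field_simp
  rw [this] at h3
  norm_num at h3

/-- a third vertex next to `s` -/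
lemma third (hk : c.k = 2) (x s : V) (hxs : x ≠ s) (y0 : B) (hy0 : c.n x y0 = 2) :
    ∃ t s', s' ≠ x ∧ 1 ≤ c.n s t ∧
      ∀ i, c.n i t = (if i = s then 1 else 0) + (if i = s' then 1 else 0) := by
  by_contra hcon
  push Not at hcon
  have h1 : ∀ t, c.n s t ≤ c.n x t := by
    intro t
    rcases Nat.eq_zero_or_pos (c.n s t) with h | h
    · omega
    obtain ⟨s', hs'⟩ := blk c hk s t h
    have hsx : s' = x := by
      by_contra hne
      obtain ⟨i, hi⟩ := hcon t s' hne h
      exact hi (hs' i)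
    subst hsx
    have e1 := hs' s'
    have e2 := hs' s
    rw [if_neg hxs, if_pos rfl] at e1
    rw [if_pos rfl, if_neg hxs.symm] at e2
    omega
  have h2 : c.n s y0 = 0 := by
    have := loop_blk c hk x y0 hy0 s
    rw [if_neg hxs.symm] at this
    simpa using this
  have h3 : ∑ t, c.n s t < ∑ t, c.n x t :=
    Finset.sum_lt_sum (fun t _ => h1 t) ⟨y0, Finset.mem_univ _, by omega⟩
  rw [c.row, c.row] at h3
  exact lt_irrefl _ h3

lemma W_du (x s l : V) : (c.P *ᵥ du x s) l
    = c.p (Pi.single x 1) (Pi.single l 1) - c.p (Pi.single s 1) (Pi.single l 1) := by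
  rw [← c.p_single]
  have : (du x s : V → ℝ) = Pi.single x 1 - Pi.single s 1 := rfl
  rw [this, map_sub, LinearMap.sub_apply]

/-- `r = 3`: the bridge at `x` -/
lemma beta_low (hk : c.k = 2) (hr : c.r = 3) (x s x1 : V) (hxs : x ≠ s) (hx1 : x ≠ x1)
    (y0 t : B) (hy0 : c.n x y0 = 2) (hty : t ≠ y0)
    (ht : ∀ i, c.n i t = (if i = x then 1 else 0) + (if i = x1 then 1 else 0)) :
    2 * (1 - 1 / (Fintype.card V : ℝ)) ≤ (c.P *ᵥ du x s) x := by
  have hxt : c.n x t = 1 := by rw [ht, if_pos rfl, if_neg hx1]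
  -- other blocks avoid x
  have hoth : ∀ y, y ≠ y0 → y ≠ t → c.n x y = 0 := by
    intro y h1 h2
    have h3 := c.row x
    rw [hr] at h3
    have h4 : ∑ y' ∈ ({y, y0, t} : Finset B), c.n x y' ≤ ∑ y', c.n x y' :=
      Finset.sum_le_sum_of_subset (Finset.subset_univ _)
    rw [Finset.sum_insert (by simp [h1, h2]), Finset.sum_pair hty.symm, h3, hy0, hxt] at h4
    omega
  have key : ∀ f : V → ℝ, c.p f (Pi.single x1 1) = c.p f (Pi.single x 1) - 2 * f x
      + 2 * ((∑ i, f i) / (Fintype.card V : ℝ)) := by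
    intro f
    have h := c.p_lam f x
    simp only [map_sum, map_smul, smul_eq_mul] at h
    have h5 : ∑ y, (c.n x y : ℝ) * c.p f (cl c.n y)
        = ∑ y ∈ ({y0, t} : Finset B), (c.n x y : ℝ) * c.p f (cl c.n y) := by
      symm
      refine Finset.sum_subset (Finset.subset_univ _) ?_
      intro y _ hy
      simp only [Finset.mem_insert, Finset.mem_singleton, not_or] at hy
      rw [hoth y hy.1 hy.2]; simp
    rw [h5, Finset.sum_pair hty.symm, hy0, hxt] at h
    have e1 : c.p f (cl c.n y0) = 2 * c.p f (Pi.single x 1) := by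
      have h6 := loop_zt c hk x y0 hy0
      have h7 : cl c.n y0 = c.zt x y0 + (c.k : ℝ) • Pi.single x 1 := by
        unfold Ctx.zt; abel
      rw [h7, h6, zero_add, map_smul, hk]; simp
    have e2 : c.p f (cl c.n t) = c.p f (Pi.single x 1) + c.p f (Pi.single x1 1) := by
      have h6 := blk_zt c hk x t x1 ht
      have h7 : cl c.n t = c.zt x t + (c.k : ℝ) • Pi.single x 1 := by
        unfold Ctx.zt; abel
      rw [h7, h6, map_add, map_smul, hk]
      have : (du x1 x : V → ℝ) = Pi.single x1 1 - Pi.single x 1 := rfl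
      rw [this, map_sub]; simp; ring
    rw [e1, e2, hk, hr] at h
    push_cast at h
    linarith
  have k1 := key (Pi.single x 1)
  have k2 := key (Pi.single s 1)
  have k3 := key (Pi.single x1 1)
  have s1 : ∀ a : V, ∑ i, (Pi.single a (1 : ℝ) : V → ℝ) i = 1 := by intro a; simp
  rw [s1] at k1 k2 k3
  have a1 : (Pi.single x (1 : ℝ) : V → ℝ) x = 1 := by simp
  have a2 : (Pi.single s (1 : ℝ) : V → ℝ) x = 0 := by rw [Pi.single_apply, if_neg hxs]
  have a3 : (Pi.single x1 (1 : ℝ) : V → ℝ) x = 0 := by rw [Pi.single_apply, if_neg hx1]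
  rw [a1] at k1
  rw [a2] at k2
  rw [a3] at k3
  have k4 := W_nonneg c (by omega) x1 s
  rw [W_du] at k4
  rw [W_du]
  have k5 := c.ps (Pi.single x1 1) (Pi.single x 1)
  linarith

theorem binary2 (hk : c.k = 2) (hv : 2 ≤ Fintype.card V)
    (hcount : Fintype.card B * 2 = Fintype.card V * c.r) (x : V) (y0 : B) : c.n x y0 ≤ 1 := by
  classical
  by_contra hcon
  have hy0 : c.n x y0 = 2 := by
    have h2 : c.n x y0 ≤ ∑ i, c.n i y0 := Finset.single_le_sum (f := fun i => c.n i y0)
      (fun _ _ => Nat.zero_le _) (Finset.mem_univ x)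
    rw [c.col, hk] at h2
    omega
  have hne : ((Finset.univ : Finset V).erase x).Nonempty := by
    rw [← Finset.card_pos, Finset.card_erase_of_mem (Finset.mem_univ x), Finset.card_univ]
    omega
  obtain ⟨s, hs, hsmax⟩ := Finset.exists_max_image _ (fun l => c.A x l) hne
  have hxs : x ≠ s := (Finset.ne_of_mem_erase hs).symm
  have hmax : ∀ s', c.A x s' ≤ c.A x s := by
    intro s'
    rcases eq_or_ne s' x with h | h
    · subst h; rw [c.A_self]; exact c.A_nonneg _ _
    · exact hsmax s' (Finset.mem_erase.2 ⟨h, Finset.mem_univ _⟩)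
  have hk0 : 0 < c.k := by omega
  have hr := r_ge c hk x s hxs y0 hy0
  have hr' : (3 : ℝ) ≤ c.r := by exact_mod_cast hr
  set α : ℝ := -(c.P *ᵥ du x s) s with hα
  set β : ℝ := (c.P *ᵥ du x s) x with hβ
  have hα0 : 0 ≤ α := by
    have := W_nonpos c hk0 x s; linarith
  have hβ0 : 0 ≤ β := W_nonneg c hk0 x s
  have hRab : c.R x s = α + β := by rw [R_eq_W]; linarith
  have hA := A_eq_sum c x s
  have hA2 : α ^ 2 + β ^ 2 ≤ c.A x s := by
    rw [hA]
    have := two_le_sum (c.P *ᵥ du x s) x s hxs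
    rw [hα, neg_sq]; linarith
  obtain ⟨t1, ht1y, ht1x, ht1⟩ := nb_x c hk x s hxs y0 hy0
  obtain ⟨x1, hx1⟩ := blk c hk x t1 ht1x
  rw [blk_zt c hk x t1 x1 hx1, p_du] at ht1
  have h2n : 0 < 2 / ((c.r : ℝ) - 2) := by
    apply div_pos (by norm_num) (by linarith)
  have hx1x : x ≠ x1 := by
    rintro rfl
    rw [sub_self] at ht1; linarith
  have hRlow : 2 / ((c.r : ℝ) - 2) ≤ α + β := by
    have := mp' c hk0 x s x1
    linarith
  have hApos : 0 < c.A x s := by
    have h3 : 0 < α + β := lt_of_lt_of_le h2n hRlow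
    nlinarith [sq_nonneg (α - β), mul_pos h3 h3]
  obtain ⟨main0, main1⟩ := main_ineq c hk x s y0 hy0 hmax
  rw [hRab] at main0 main1
  -- no loops at s
  have hnoloop : ∀ t s', 1 ≤ c.n s t →
      (∀ i, c.n i t = (if i = s then 1 else 0) + (if i = s' then 1 else 0)) → s ≠ s' := by
    rintro t s' ht hs' rfl
    have hz := blk_zt c hk s t s hs'
    have h4 := blk_sw c hk x s y0 hy0 t ht
    have hz0 : (du s s : V → ℝ) = 0 := by simp [du]
    rw [hz, hz0] at h4
    simp at h4
    linarith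
  by_cases hmu : ∃ t, 1 ≤ c.n s t ∧ 1 ≤ c.n x t
  · -- `μ ≥ 1`
    have hv3 : 3 ≤ Fintype.card V := by
      obtain ⟨t, s', hs'x, ht, hs'⟩ := third c hk x s hxs y0 hy0
      have hss' := hnoloop t s' ht hs'
      have h5 : ({x, s, s'} : Finset V).card = 3 := by
        rw [Finset.card_insert_of_notMem (by simp [hxs, hs'x.symm]), Finset.card_pair hss']
      rw [← h5, ← Finset.card_univ]
      exact Finset.card_le_card (Finset.subset_univ _)
    have h6 := csv (c.P *ᵥ du x s) (c.sum_P _) s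
    rw [← hA] at h6
    have h7 : (Fintype.card V : ℝ) * α ^ 2 ≤ ((Fintype.card V : ℝ) - 1) * c.A x s := by
      rw [hα, neg_sq]; exact h6
    exact real1 c.r (Fintype.card V) hr hv3 α β (c.A x s) (mm c s) hα0 hβ0 (mm_nonneg c s)
      (mm_le c hk s) (mm_sq c hk x s hmax) hA2 h7
      (A_low c hk x s y0 hy0 hr hv hmax) hRlow (main1 hmu hxs)
  · -- `μ = 0`
    have hmu' : ∀ t, 1 ≤ c.n s t → ¬ 1 ≤ c.n x t := fun t h1 h2 => hmu ⟨t, h1, h2⟩
    have hx1s : s ≠ x1 := by
      rintro rfl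
      refine hmu' t1 ?_ ht1x
      rw [hx1, if_pos rfl]; omega
    obtain ⟨t2, ht2s, ht2⟩ := nb_s c hk x s hxs (by omega)
    obtain ⟨s1, hs1⟩ := blk c hk s t2 ht2s
    have hs1s := hnoloop t2 s1 ht2s hs1
    have hs1x : x ≠ s1 := by
      rintro rfl
      refine hmu' t2 ht2s ?_
      rw [hs1, if_pos rfl]; omega
    rw [blk_zt c hk s t2 s1 hs1, p_du] at ht2
    set e : ℝ := -(c.P *ᵥ du x s) x1 with he
    set f : ℝ := -(c.P *ᵥ du x s) s1 with hf
    have hAe : α ^ 2 + β ^ 2 + e ^ 2 ≤ c.A x s := by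
      rw [hA]
      have := three_le_sum (c.P *ᵥ du x s) x s x1 hxs hx1x hx1s
      rw [hα, he, neg_sq, neg_sq]; linarith
    have hAf : α ^ 2 + β ^ 2 + f ^ 2 ≤ c.A x s := by
      rw [hA]
      have := three_le_sum (c.P *ᵥ du x s) x s s1 hxs hs1x hs1s
      rw [hα, hf, neg_sq, neg_sq]; linarith
    have he1 : 2 / ((c.r : ℝ) - 2) - β ≤ e := by linarith
    have hf1 : α - 2 / (c.r : ℝ) ≤ f := by linarith
    rcases (by omega : c.r = 3 ∨ c.r = 4 ∨ 5 ≤ c.r) with h | h | h
    · -- r = 3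
      have hb := beta_low c hk h x s x1 hxs hx1x y0 t1 hy0 ht1y hx1
      have hv3 : 3 ≤ Fintype.card V := by
        have h5 : ({x, s, x1} : Finset V).card = 3 := by
          rw [Finset.card_insert_of_notMem (by simp [hxs, hx1x]), Finset.card_pair hx1s]
        rw [← h5, ← Finset.card_univ]
        exact Finset.card_le_card (Finset.subset_univ _)
      have hv4 : 4 ≤ Fintype.card V := by
        rw [h] at hcount; omega
      have hv4' : (4 : ℝ) ≤ Fintype.card V := by exact_mod_cast hv4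
      have hb2 : 3 / 2 ≤ β := by
        have : 1 / (Fintype.card V : ℝ) ≤ 1 / 4 :=
          one_div_le_one_div_of_le (by norm_num) hv4'
        linarith
      have hm := mm_le c hk s
      rw [h] at hm main0 hf1
      push_cast at hm main0 hf1
      exact real0_3 α β (c.A x s) (mm c s) f hα0 hb2 (mm_nonneg c s) (by linarith) hAf
        (by linarith) (by linarith)
    · have hm := mm_le c hk s
      have hm2 := mm_sq c hk x s hmax
      rw [h] at hm hm2 main0 hf1 he1
      push_cast at hm hm2 main0 hf1 he1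
      exact real0_4 α β (c.A x s) (mm c s) e f hα0 hβ0 (mm_nonneg c s) (by linarith)
        (by linarith) hAe (by linarith) hAf (by linarith) (by linarith)
    · exact real0_5 c.r h α β (c.A x s) (mm c s) e hα0 hβ0 (mm_nonneg c s) (mm_le c hk s)
        (mm_sq c hk x s hmax) hAe he1 main0

end

end Pool.Agent.H16.BS2
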