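import Pool.Agent.H16.BS2.Final

set_option autoImplicit false
set_option linter.unusedSectionVars false

namespace Pool.Agent.H16.BS2
open Matrix Finset Pool.Agent.H856R2

variable {V B : Type} [Fintype V] [DecidableEq V] [Fintype B] [DecidableEq B]

/-- an optimal design with block size two is binary -/
theorem opt_binary2 (N : Matrix V B ℕ) (r : ℕ) (h : Mar N 2 r)
    (hv : 2 ≤ Fintype.card V) (hd : (MM N 2 r).det ≠ 0)
    (hopt : ∀ N1 : Matrix V B ℕ, Mar N1 2 r → (MM N1 2 r).det ≠ 0 →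
      (MM N 2 r)⁻¹.trace ≤ (MM N1 2 r)⁻¹.trace) (i : V) (j : B) : N i j ≤ 1 := by
  have hV : Nonempty V := ⟨i⟩
  exact binary2 (toCtx N 2 r h (by omega) hd hopt) rfl hv (Mar_count N 2 r h) i j

/-- an optimal design is binary when `min (r, k) = 2`. -/
theorem opt_binary2' (N : Matrix V B ℕ) (k r : ℕ) (h : Mar N k r)
    (hkv : k ≤ Fintype.card V) (h2 : k = 2 ∨ r = 2)
    (hd : (MM N k r).det ≠ 0)
    (hopt : ∀ N1 : Matrix V B ℕ, Mar N1 k r → (MM N1 k r).det ≠ 0 →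
      (MM N k r)⁻¹.trace ≤ (MM N1 k r)⁻¹.trace) (i : V) (j : B) : N i j ≤ 1 := by
  have hV : Nonempty V := ⟨i⟩
  have hB : Nonempty B := ⟨j⟩
  have e2 := entry_le_col N k r h i j
  rcases Nat.lt_or_ge k 2 with hk | hk
  · omega
  rcases h2 with hk2 | hr2
  · subst hk2
    exact opt_binary2 N r h hkv hd hopt i j
  · subst hr2
    have hcount := Mar_count N k 2 h
    have hB2 : 2 ≤ Fintype.card B := by
      by_contra hcon
      have hB1 : 0 < Fintype.card B := Fintype.card_pos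
      have : Fintype.card B = 1 := by omega
      rw [this] at hcount
      omega
    -- transposed
    obtain ⟨hdT, htT⟩ := trans_inv N k 2 h (by omega) (by omega) hd
    have hT := Mar_trans N k 2 h
    have := opt_binary2 Nᵀ k hT hB2 hdT (by
      intro N1 h1 hd1
      obtain ⟨hd2, ht2⟩ := trans_inv N1 2 k h1 (by omega) (by omega) hd1
      have ho := hopt N1ᵀ (Mar_trans N1 2 k h1) hd2
      obtain ⟨-, ht3⟩ := trans_inv Nᵀ 2 k hT (by omega) (by omega) hdT
      rw [Matrix.transpose_transpose] at ht3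
      rw [ht3, ht2] at ho
      have hkr' : (0 : ℝ) < (k : ℝ) / (2 : ℕ) := by
        have : (0 : ℝ) < k := by exact_mod_cast (by omega : 0 < k)
        positivity
      have ho2 : (k : ℝ) / (2 : ℕ) * (MM Nᵀ 2 k)⁻¹.trace ≤ (k : ℝ) / (2 : ℕ) * (MM N1 2 k)⁻¹.trace := by
        linarith
      exact le_of_mul_le_mul_left ho2 hkr') j i
    rwa [Matrix.transpose_apply] at this

/-- Main theorem, general form. -/
theorem main_general2 (N : Matrix V B ℕ) (k r : ℕ) (h : Mar N k r)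
    (hkv : k ≤ Fintype.card V) (h2 : k = 2 ∨ r = 2)
    (hd : (MM N k r).det ≠ 0) (hnb : ∃ i j, 2 ≤ N i j) :
    ∃ M : Matrix V B ℕ, Mar M k r ∧ (∀ i j, M i j ≤ 1) ∧ (MM M k r).det ≠ 0 ∧
      (MM M k r)⁻¹.trace < (MM N k r)⁻¹.trace := by
  have hfin : Set.Finite {M : Matrix V B ℕ | Mar M k r ∧ (MM M k r).det ≠ 0} := by
    have h1 : Set.Finite (Set.Iic (fun (_ : V) (_ : B) => r)) := Set.finite_Iic _
    refine h1.subset ?_
    intro M hM
    exact fun i j => entry_le_row M k r hM.1 i j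
  obtain ⟨M, hM, hmin⟩ := Set.exists_min_image _ (fun M : Matrix V B ℕ => (MM M k r)⁻¹.trace)
    hfin ⟨N, h, hd⟩
  have hopt : ∀ N1 : Matrix V B ℕ, Mar N1 k r → (MM N1 k r).det ≠ 0 →
      (MM M k r)⁻¹.trace ≤ (MM N1 k r)⁻¹.trace := fun N1 h1 h2 => hmin N1 ⟨h1, h2⟩
  refine ⟨M, hM.1, fun i j => opt_binary2' M k r hM.1 hkv h2 hM.2 hopt i j, hM.2, ?_⟩
  refine lt_of_le_of_ne (hopt N h hd) ?_
  intro heq
  obtain ⟨i, j, hij⟩ := hnb
  have := opt_binary2' N k r h hkv h2 hd (fun N1 h1 h2 => by rw [← heq]; exact hopt N1 h1 h2) i j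
  omega

end Pool.Agent.H16.BS2
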