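import Pool.Graph.R_seed8.H856R2.MatTrans

set_option autoImplicit false

namespace Pool.Agent.H16.BS2
open Matrix Finset Pool.Agent.H856R2

variable {V B : Type*} [Fintype V] [DecidableEq V] [Fintype B] [DecidableEq B]

section
variable (c : Ctx V B)

lemma sum_du0 (i j : V) : ∑ l, (du i j : V → ℝ) l = 0 := by
  simp [du_apply, Finset.sum_sub_distrib]

/-- `p(f, N N^T e_l)` for `f = du i j` -/
lemma cut_sum (i j l : V) : ∑ y, (c.n l y : ℝ) * c.p (du i j) (cl c.n y)
    = c.k * (c.r * (c.P *ᵥ du i j) l - (du i j : V → ℝ) l) := by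
  have h := c.p_lam (du i j) l
  simp only [map_sum, map_smul, smul_eq_mul] at h
  rw [h, sum_du0, c.p_single]; ring

/-- maximum principle -/
theorem mp (hk : 0 < c.k) (i j l : V) : (c.P *ᵥ du i j) l ≤ (c.P *ᵥ du i j) i := by
  classical
  by_contra hcon
  push Not at hcon
  have hne : i ≠ j := by
    rintro rfl
    have : (du i i : V → ℝ) = 0 := by simp [du]
    rw [this] at hcon; simp at hcon
  set F := c.P *ᵥ du i j with hF
  obtain ⟨l0, -, hl0⟩ := Finset.exists_max_image (Finset.univ : Finset V) F ⟨i, Finset.mem_univ i⟩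
  have hmax : ∀ a, F a ≤ F l0 := fun a => hl0 a (Finset.mem_univ a)
  have hkR : (0 : ℝ) < c.k := by exact_mod_cast hk
  -- closure
  have hcl : ∀ a, F a = F l0 → ∀ y, 1 ≤ c.n a y → ∀ b, 1 ≤ c.n b y → F b = F l0 := by
    intro a ha y hay b hby
    have hai : a ≠ i := by
      rintro rfl
      have := hmax l
      linarith
    have hfa : (du i j : V → ℝ) a ≤ 0 := by
      rw [du_apply, if_neg hai]; split_ifs <;> norm_num
    have h1 := cut_sum c i j a
    have e1 : ∀ y, c.p (du i j) (cl c.n y) = ∑ b, (c.n b y : ℝ) * F b := fun y => c.p_cl _ y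
    -- sum of n_ay (k m - sum_b n_by F b) = k f_a
    have h2 : ∑ y, (c.n a y : ℝ) * ∑ b, (c.n b y : ℝ) * (F l0 - F b)
        = c.k * (du i j : V → ℝ) a := by
      have e2 : ∀ y, (c.n a y : ℝ) * ∑ b, (c.n b y : ℝ) * (F l0 - F b)
          = (c.n a y : ℝ) * (c.k * F l0) - (c.n a y : ℝ) * c.p (du i j) (cl c.n y) := by
        intro y
        rw [e1]
        simp only [mul_sub, Finset.sum_sub_distrib, ← Finset.sum_mul, c.colR]
      simp only [e2, Finset.sum_sub_distrib, ← Finset.sum_mul, c.rowR]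
      rw [h1, ← hF, ha]; ring
    have h3 : ∀ y ∈ (Finset.univ : Finset B),
        0 ≤ (c.n a y : ℝ) * ∑ b, (c.n b y : ℝ) * (F l0 - F b) := by
      intro y _
      refine mul_nonneg (Nat.cast_nonneg _) (Finset.sum_nonneg fun b _ => ?_)
      exact mul_nonneg (Nat.cast_nonneg _) (by linarith [hmax b])
    have h4 : ∑ y, (c.n a y : ℝ) * ∑ b, (c.n b y : ℝ) * (F l0 - F b) = 0 := by
      refine le_antisymm ?_ (Finset.sum_nonneg h3)
      rw [h2]
      exact mul_nonpos_of_nonneg_of_nonpos hkR.le hfa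
    have h5 := (Finset.sum_eq_zero_iff_of_nonneg h3).1 h4 y (Finset.mem_univ y)
    have hay' : (c.n a y : ℝ) ≠ 0 := by
      have : (1 : ℝ) ≤ c.n a y := by exact_mod_cast hay
      positivity
    have h6 : ∑ b, (c.n b y : ℝ) * (F l0 - F b) = 0 := by
      rcases mul_eq_zero.1 h5 with h | h
      · exact absurd h hay'
      · exact h
    have h7 := (Finset.sum_eq_zero_iff_of_nonneg (fun b _ =>
      mul_nonneg (Nat.cast_nonneg _) (by linarith [hmax b]))).1 h6 b (Finset.mem_univ b)
    have hby' : (c.n b y : ℝ) ≠ 0 := by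
      have : (1 : ℝ) ≤ c.n b y := by exact_mod_cast hby
      positivity
    rcases mul_eq_zero.1 h7 with h | h
    · exact absurd h hby'
    · linarith
  set M : Finset V := Finset.univ.filter (fun a => F a = F l0) with hM
  have hmem : ∀ a, a ∈ M ↔ F a = F l0 := fun a => by simp [hM]
  have hiM : i ∉ M := by
    rw [hmem]; have := hmax l; intro h; linarith
  -- the vector identity
  have hvec : ∑ a ∈ M, (∑ y, (c.n a y : ℝ) • cl c.n y)
      = ((c.k : ℝ) * c.r) • ∑ a ∈ M, (Pi.single a (1 : ℝ) : V → ℝ) := by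
    ext b
    simp only [Finset.sum_apply, Pi.smul_apply, smul_eq_mul, cl]
    by_cases hb : b ∈ M
    · have e : ∑ a ∈ M, (Pi.single a (1 : ℝ) : V → ℝ) b = 1 := by
        simp [Pi.single_apply, hb]
      rw [e, Finset.sum_comm]
      have e2 : ∀ y ∈ (Finset.univ : Finset B), ∑ a ∈ M, (c.n a y : ℝ) * c.n b y
          = c.k * c.n b y := by
        intro y _
        rw [← Finset.sum_mul]
        rcases Nat.eq_zero_or_pos (c.n b y) with h | h
        · simp [h]
        · congr 1
          rw [← c.colR y]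
          refine Finset.sum_subset (Finset.subset_univ _) ?_
          intro a _ haM
          rcases Nat.eq_zero_or_pos (c.n a y) with h' | h'
          · simp [h']
          · exact absurd ((hmem a).2 (hcl b ((hmem b).1 hb) y h a h')) haM
      rw [Finset.sum_congr rfl e2, ← Finset.mul_sum, c.rowR]; ring
    · have e : ∑ a ∈ M, (Pi.single a (1 : ℝ) : V → ℝ) b = 0 := by
        refine Finset.sum_eq_zero fun a ha => ?_
        rw [Pi.single_apply, if_neg]; rintro rfl; exact hb ha
      rw [e, mul_zero]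
      refine Finset.sum_eq_zero fun a ha => Finset.sum_eq_zero fun y _ => ?_
      rcases Nat.eq_zero_or_pos (c.n a y) with h | h
      · simp [h]
      rcases Nat.eq_zero_or_pos (c.n b y) with h' | h'
      · simp [h']
      · exact absurd ((hmem b).2 (hcl a ((hmem a).1 ha) y h b h')) hb
  have h8 := congrArg (fun g => c.p (Pi.single i 1) g) hvec
  simp only [map_sum, map_smul, smul_eq_mul] at h8
  have e9 : ∀ a ∈ M, ∑ y, (c.n a y : ℝ) * c.p (Pi.single i 1) (cl c.n y)
      = c.k * c.r * c.p (Pi.single i 1) (Pi.single a 1) + c.k * (1 / (Fintype.card V : ℝ)) := by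
    intro a ha
    have h := c.p_lam (Pi.single i 1) a
    simp only [map_sum, map_smul, smul_eq_mul] at h
    rw [h]
    have : (Pi.single i (1 : ℝ) : V → ℝ) a = 0 := by
      rw [Pi.single_apply, if_neg]; rintro rfl; exact hiM ha
    rw [this]
    simp
    ring
  rw [Finset.sum_congr rfl e9, Finset.sum_add_distrib, ← Finset.mul_sum] at h8
  have h10 : ∑ a ∈ M, (c.k : ℝ) * (1 / (Fintype.card V : ℝ)) = 0 := by linarith
  have h11 : 0 < ∑ a ∈ M, (c.k : ℝ) * (1 / (Fintype.card V : ℝ)) := by
    refine Finset.sum_pos (fun a _ => ?_) ⟨l0, (hmem l0).2 rfl⟩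
    have hv : (0 : ℝ) < Fintype.card V := by
      have : 0 < Fintype.card V := Fintype.card_pos_iff.2 ⟨i⟩
      exact_mod_cast this
    positivity
  linarith

/-- minimum principle -/
theorem mp' (hk : 0 < c.k) (i j l : V) : (c.P *ᵥ du i j) j ≤ (c.P *ᵥ du i j) l := by
  have h := mp c hk j i l
  have e : (du j i : V → ℝ) = -du i j := by unfold du; abel
  rw [e, Matrix.mulVec_neg] at h
  simp only [Pi.neg_apply] at h
  linarith

lemma W_nonneg (hk : 0 < c.k) (i j : V) : 0 ≤ (c.P *ᵥ du i j) i := by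
  have h := c.sum_P (du i j)
  have h2 : ∑ l, (c.P *ᵥ du i j) l ≤ ∑ _l : V, (c.P *ᵥ du i j) i :=
    Finset.sum_le_sum fun l _ => mp c hk i j l
  rw [h, Finset.sum_const, Finset.card_univ, nsmul_eq_mul] at h2
  have hv : (0 : ℝ) < Fintype.card V := by
    have : 0 < Fintype.card V := Fintype.card_pos_iff.2 ⟨i⟩
    exact_mod_cast this
  exact nonneg_of_mul_nonneg_right h2 hv

lemma W_nonpos (hk : 0 < c.k) (i j : V) : (c.P *ᵥ du i j) j ≤ 0 := by
  have h := W_nonneg c hk j i
  have e : (du j i : V → ℝ) = -du i j := by unfold du; abel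
  rw [e, Matrix.mulVec_neg] at h
  simp only [Pi.neg_apply] at h
  linarith

/-- block structure for `k = 2` -/
lemma blk (hk : c.k = 2) (s : V) (t : B) (h : 1 ≤ c.n s t) :
    ∃ s', ∀ i, c.n i t = (if i = s then 1 else 0) + (if i = s' then 1 else 0) := by
  have h1 := c.col t
  rw [hk] at h1
  have h2 : ∑ i, (c.n i t - (if i = s then 1 else 0)) = 1 := by
    have h3 : ∑ i, c.n i t = ∑ i, (c.n i t - (if i = s then 1 else 0))
        + ∑ i, (if i = s then 1 else 0) := by
      rw [← Finset.sum_add_distrib]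
      refine Finset.sum_congr rfl fun i _ => ?_
      split_ifs with hi
      · subst hi; omega
      · omega
    rw [h1] at h3
    simp at h3
    omega
  obtain ⟨s', -, hs'⟩ : ∃ s' ∈ (Finset.univ : Finset V), c.n s' t - (if s' = s then 1 else 0) ≠ 0 := by
    by_contra hcon
    push Not at hcon
    rw [Finset.sum_eq_zero hcon] at h2
    omega
  have h4 := Finset.add_sum_erase (Finset.univ : Finset V)
    (fun i => c.n i t - (if i = s then 1 else 0)) (Finset.mem_univ s')
  rw [h2] at h4
  have h5 : c.n s' t - (if s' = s then 1 else 0) = 1 := by omega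
  have h6 : ∑ i ∈ (Finset.univ : Finset V).erase s', (c.n i t - (if i = s then 1 else 0)) = 0 := by
    omega
  rw [Finset.sum_eq_zero_iff] at h6
  refine ⟨s', fun i => ?_⟩
  by_cases hi : i = s'
  · subst hi
    rw [if_pos rfl]
    by_cases his : i = s
    · subst his; simp at h5 ⊢; omega
    · simp [his] at h5 ⊢; omega
  · have := h6 i (Finset.mem_erase.2 ⟨hi, Finset.mem_univ i⟩)
    rw [if_neg hi]
    by_cases his : i = s
    · subst his; simp at this ⊢; omega
    · simp [his] at this ⊢; omega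

lemma blk_zt (hk : c.k = 2) (s : V) (t : B) (s' : V)
    (h : ∀ i, c.n i t = (if i = s then 1 else 0) + (if i = s' then 1 else 0)) :
    c.zt s t = du s' s := by
  unfold Ctx.zt du cl
  rw [hk]
  ext i
  simp only [Pi.sub_apply, Pi.smul_apply, smul_eq_mul, Pi.single_apply, h i]
  push_cast
  ring

lemma sum_zt (s : V) : ∑ t, (c.n s t : ℝ) • c.zt s t
    = (∑ t, (c.n s t : ℝ) • cl c.n t) - ((c.k : ℝ) * c.r) • Pi.single s 1 := by
  unfold Ctx.zt
  simp only [smul_sub, Finset.sum_sub_distrib, smul_smul, ← Finset.sum_smul, ← Finset.sum_mul,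
    c.rowR]
  rw [mul_comm (c.k : ℝ)]

lemma sum_q_zt (u : V → ℝ) (s : V) : ∑ t, (c.n s t : ℝ) * c.q u (c.zt s t)
    = -(c.k * c.p u (Pi.single s 1)) := by
  have h := congrArg (fun g => c.q u g) (sum_zt c s)
  simp only [map_sum, map_smul, map_sub, smul_eq_mul] at h
  rw [h]
  have h2 := c.q_lam u s
  simp only [map_sum, map_smul, smul_eq_mul] at h2
  rw [h2]; ring

lemma sum_p_zt (u : V → ℝ) (s : V) : ∑ t, (c.n s t : ℝ) * c.p u (c.zt s t)
    = -(c.k * (u s - (∑ i, u i) / (Fintype.card V : ℝ))) := by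
  have h := congrArg (fun g => c.p u g) (sum_zt c s)
  simp only [map_sum, map_smul, map_sub, smul_eq_mul] at h
  rw [h]
  have h2 := c.p_lam u s
  simp only [map_sum, map_smul, smul_eq_mul] at h2
  rw [h2]; ring

end

end Pool.Agent.H16.BS2
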