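import Pool.Agent.H16.BS2.Graph

set_option autoImplicit false

namespace Pool.Agent.H16.BS2
open Matrix Finset Pool.Agent.H856R2

variable {V B : Type*} [Fintype V] [DecidableEq V] [Fintype B] [DecidableEq B]

/-- `v f_i^2 ≤ (v-1) |f|^2` when `Σ f = 0` -/
lemma csv (f : V → ℝ) (hf : ∑ l, f l = 0) (i : V) :
    (Fintype.card V : ℝ) * f i ^ 2 ≤ ((Fintype.card V : ℝ) - 1) * ∑ l, f l ^ 2 := by
  have h1 := Finset.add_sum_erase (Finset.univ : Finset V) f (Finset.mem_univ i)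
  have h2 := Finset.add_sum_erase (Finset.univ : Finset V) (fun l => f l ^ 2) (Finset.mem_univ i)
  have h3 := sq_sum_le_card_mul_sum_sq (s := (Finset.univ : Finset V).erase i) (f := f)
  rw [Finset.card_erase_of_mem (Finset.mem_univ i), Finset.card_univ] at h3
  have hv : 1 ≤ Fintype.card V := Fintype.card_pos_iff.2 ⟨i⟩
  rw [Nat.cast_sub hv, Nat.cast_one] at h3
  have h4 : ∑ l ∈ (Finset.univ : Finset V).erase i, f l = - f i := by linarith
  have h5 : ∑ l ∈ (Finset.univ : Finset V).erase i, f l ^ 2 = ∑ l, f l ^ 2 - f i ^ 2 := by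
    linarith
  rw [h4, h5] at h3
  nlinarith

lemma two_le_sum (f : V → ℝ) (i j : V) (hij : i ≠ j) : f i ^ 2 + f j ^ 2 ≤ ∑ l, f l ^ 2 := by
  have h : ∑ l ∈ ({i, j} : Finset V), f l ^ 2 ≤ ∑ l, f l ^ 2 :=
    Finset.sum_le_sum_of_subset_of_nonneg (Finset.subset_univ _) fun _ _ _ => sq_nonneg _
  rwa [Finset.sum_pair hij] at h

lemma three_le_sum (f : V → ℝ) (i j l : V) (hij : i ≠ j) (hil : i ≠ l) (hjl : j ≠ l) :
    f i ^ 2 + f j ^ 2 + f l ^ 2 ≤ ∑ l, f l ^ 2 := by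
  have h : ∑ a ∈ ({i, j, l} : Finset V), f a ^ 2 ≤ ∑ l, f l ^ 2 :=
    Finset.sum_le_sum_of_subset_of_nonneg (Finset.subset_univ _) fun _ _ _ => sq_nonneg _
  rw [Finset.sum_insert (by simp [hij, hil]), Finset.sum_pair hjl] at h
  linarith

section
variable (c : Ctx V B)

lemma A_eq_sum (x s : V) : c.A x s = ∑ l, (c.P *ᵥ du x s) l ^ 2 := by
  unfold Ctx.A
  rw [c.q_def]
  simp only [dotProduct, pow_two]

lemma R_eq_W (x s : V) : c.R x s = (c.P *ᵥ du x s) x - (c.P *ᵥ du x s) s := by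
  rw [← c.p_single, ← c.p_single, ← map_sub]; rfl

lemma dQ_eq_sum (i : V) : c.dQ i = ∑ l, (c.P *ᵥ Pi.single i 1) l ^ 2 := by
  unfold Ctx.dQ
  rw [c.q_def]
  simp only [dotProduct, pow_two]

lemma dQ_low (i : V) : (Fintype.card V : ℝ) * c.dP i ^ 2 ≤ ((Fintype.card V : ℝ) - 1) * c.dQ i := by
  have h := csv (c.P *ᵥ Pi.single i 1) (c.sum_P _) i
  rw [← dQ_eq_sum, ← c.p_single] at h
  exact h

/-- `P_ii C_ii ≥ (1 - 1/v)^2` -/
lemma dP_low (hk : 0 < c.k) (i : V) :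
    (1 - 1 / (Fintype.card V : ℝ)) ^ 2
      ≤ c.dP i * (c.r - (1 / (c.k : ℝ)) * ∑ y, (c.n i y : ℝ) ^ 2) := by
  have hkR : (c.k : ℝ) ≠ 0 := by positivity
  set g : V → ℝ := (c.r : ℝ) • Pi.single i 1
    - (1 / (c.k : ℝ)) • ∑ y, (c.n i y : ℝ) • cl c.n y with hg
  have hpg : ∀ f : V → ℝ, c.p f g = f i - (∑ l, f l) / (Fintype.card V : ℝ) := by
    intro f
    rw [hg, map_sub, map_smul, map_smul, c.p_lam]
    simp only [smul_eq_mul]
    field_simp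
    ring
  have h1 := form_cs c.p c.pp c.ps (Pi.single i 1) g
  rw [hpg, hpg] at h1
  have e1 : (Pi.single i (1 : ℝ) : V → ℝ) i = 1 := by simp
  have e2 : ∑ l, (Pi.single i (1 : ℝ) : V → ℝ) l = 1 := by simp
  have e3 : g i = c.r - (1 / (c.k : ℝ)) * ∑ y, (c.n i y : ℝ) ^ 2 := by
    rw [hg]
    simp only [Pi.sub_apply, Pi.smul_apply, Finset.sum_apply, smul_eq_mul, cl, Pi.single_eq_same,
      mul_one, pow_two]
  have e4 : ∑ l, g l = 0 := by
    rw [hg]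
    simp only [Pi.sub_apply, Pi.smul_apply, Finset.sum_apply, smul_eq_mul, cl,
      Finset.sum_sub_distrib, ← Finset.mul_sum]
    rw [Finset.sum_comm]
    simp only [← Finset.mul_sum, c.colR, ← Finset.sum_mul, c.rowR]
    simp
    field_simp
    ring
  rw [e1, e2, e3, e4] at h1
  have e5 : c.p (Pi.single i 1) (Pi.single i 1) = c.dP i := rfl
  rw [e5] at h1
  simpa using h1

/-- the average of `A_xs` -/
lemma A_avg (x s : V) (hmax : ∀ s', c.A x s' ≤ c.A x s) :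
    (Fintype.card V : ℝ) * c.dQ x + ∑ i, c.dQ i ≤ ((Fintype.card V : ℝ) - 1) * c.A x s := by
  rw [← c.sum_A x]
  have h2 := Finset.add_sum_erase (Finset.univ : Finset V) (fun l => c.A x l) (Finset.mem_univ x)
  simp only [c.A_self, zero_add] at h2
  rw [← h2]
  have h3 : ∑ l ∈ (Finset.univ : Finset V).erase x, c.A x l
      ≤ ∑ _l ∈ (Finset.univ : Finset V).erase x, c.A x s :=
    Finset.sum_le_sum fun l _ => hmax l
  rw [Finset.sum_const, Finset.card_erase_of_mem (Finset.mem_univ x), Finset.card_univ,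
    nsmul_eq_mul] at h3
  have hv : 1 ≤ Fintype.card V := Fintype.card_pos_iff.2 ⟨x⟩
  rw [Nat.cast_sub hv, Nat.cast_one] at h3
  exact h3

/-- `P_xx ≥ 2 (1-1/v)^2/(r-2)` at a loop -/
lemma dP_loop (hk : c.k = 2) (x : V) (y0 : B) (hy0 : c.n x y0 = 2) :
    2 * (1 - 1 / (Fintype.card V : ℝ)) ^ 2 ≤ c.dP x * (c.r - 2) := by
  have h := dP_low c (by omega) x
  have h2 : (c.r : ℝ) + 2 ≤ ∑ y, (c.n x y : ℝ) ^ 2 := by
    rw [← c.rowR x]
    rw [← Finset.add_sum_erase (Finset.univ : Finset B) (fun y => (c.n x y : ℝ))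
      (Finset.mem_univ y0), ← Finset.add_sum_erase (Finset.univ : Finset B)
      (fun y => (c.n x y : ℝ) ^ 2) (Finset.mem_univ y0)]
    have h3 : ∑ y ∈ (Finset.univ : Finset B).erase y0, (c.n x y : ℝ)
        ≤ ∑ y ∈ (Finset.univ : Finset B).erase y0, (c.n x y : ℝ) ^ 2 :=
      Finset.sum_le_sum fun y _ => by
        exact_mod_cast Nat.le_self_pow (by norm_num) _
    simp only [hy0]
    push_cast
    linarith
  have h4 := mul_le_mul_of_nonneg_left h2 (c.dP_nonneg x)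
  rw [hk] at h
  push_cast at h
  nlinarith

lemma dP_gen (hk : c.k = 2) (i : V) :
    2 * (1 - 1 / (Fintype.card V : ℝ)) ^ 2 ≤ c.dP i * c.r := by
  have h := dP_low c (by omega) i
  have h2 : (c.r : ℝ) ≤ ∑ y, (c.n i y : ℝ) ^ 2 := by
    rw [← c.rowR i]
    exact Finset.sum_le_sum fun y _ => by
        exact_mod_cast Nat.le_self_pow (by norm_num) _
  have h4 := mul_le_mul_of_nonneg_left h2 (c.dP_nonneg i)
  rw [hk] at h
  push_cast at h
  nlinarith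

/-- the bound `A ≥ ((v-1)/v)^2 (4/(r-2)^2 + 4/r^2)` -/
lemma A_low (hk : c.k = 2) (x s : V) (y0 : B) (hy0 : c.n x y0 = 2) (hr : 3 ≤ c.r)
    (hv2 : 2 ≤ Fintype.card V) (hmax : ∀ s', c.A x s' ≤ c.A x s) :
    (((Fintype.card V : ℝ) - 1) / (Fintype.card V : ℝ)) ^ 2
      * (4 / ((c.r : ℝ) - 2) ^ 2 + 4 / (c.r : ℝ) ^ 2) ≤ c.A x s := by
  set v : ℝ := (Fintype.card V : ℝ) with hv
  have hv2' : (2 : ℝ) ≤ v := by rw [hv]; exact_mod_cast hv2
  have hr' : (3 : ℝ) ≤ c.r := by exact_mod_cast hr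
  have hr2 : (0 : ℝ) < c.r - 2 := by linarith
  have hr0 : (0 : ℝ) < c.r := by linarith
  have h1 := A_avg c x s hmax
  set θ : ℝ := (v - 1) / v with hθ
  have hθ1 : 1 - 1 / v = θ := by rw [hθ]; field_simp
  have hθ0 : 0 < θ := by rw [hθ]; apply div_pos <;> linarith
  have hP1 : 2 * θ ^ 2 / (c.r - 2) ≤ c.dP x := by
    rw [div_le_iff₀ hr2, ← hθ1]; exact dP_loop c hk x y0 hy0
  have hP2 : ∀ i, 2 * θ ^ 2 / c.r ≤ c.dP i := by
    intro i
    rw [div_le_iff₀ hr0, ← hθ1]; exact dP_gen c hk i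
  have hQ1 : 4 * θ ^ 3 / (c.r - 2) ^ 2 ≤ c.dQ x := by
    have h2 := dQ_low c x
    rw [← hv] at h2
    have h3 : (2 * θ ^ 2 / (c.r - 2)) ^ 2 ≤ c.dP x ^ 2 :=
      pow_le_pow_left₀ (by positivity) hP1 2
    have h4 : v * (2 * θ ^ 2 / (c.r - 2)) ^ 2 ≤ (v - 1) * c.dQ x :=
      (mul_le_mul_of_nonneg_left h3 (by linarith)).trans h2
    have h5 : v * (2 * θ ^ 2 / (c.r - 2)) ^ 2 = (v - 1) * (4 * θ ^ 3 / (c.r - 2) ^ 2) := by
      have : v - 1 = v * θ := by rw [hθ]; field_simp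
      rw [this]; field_simp; ring
    rw [h5] at h4
    exact le_of_mul_le_mul_left h4 (by linarith)
  have hQ2 : ∀ i, 4 * θ ^ 3 / c.r ^ 2 ≤ c.dQ i := by
    intro i
    have h2 := dQ_low c i
    rw [← hv] at h2
    have h3 : (2 * θ ^ 2 / (c.r : ℝ)) ^ 2 ≤ c.dP i ^ 2 :=
      pow_le_pow_left₀ (by positivity) (hP2 i) 2
    have h4 : v * (2 * θ ^ 2 / (c.r : ℝ)) ^ 2 ≤ (v - 1) * c.dQ i :=
      (mul_le_mul_of_nonneg_left h3 (by linarith)).trans h2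
    have h5 : v * (2 * θ ^ 2 / (c.r : ℝ)) ^ 2 = (v - 1) * (4 * θ ^ 3 / c.r ^ 2) := by
      have : v - 1 = v * θ := by rw [hθ]; field_simp
      rw [this]; field_simp; ring
    rw [h5] at h4
    exact le_of_mul_le_mul_left h4 (by linarith)
  have hS : v * (4 * θ ^ 3 / c.r ^ 2) ≤ ∑ i, c.dQ i := by
    have : ∑ _i : V, (4 * θ ^ 3 / (c.r : ℝ) ^ 2) ≤ ∑ i, c.dQ i :=
      Finset.sum_le_sum fun i _ => hQ2 i
    rwa [Finset.sum_const, Finset.card_univ, nsmul_eq_mul, ← hv] at this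
  have h6 : v * (4 * θ ^ 3 / (c.r - 2) ^ 2) ≤ v * c.dQ x :=
    mul_le_mul_of_nonneg_left hQ1 (by linarith)
  have h7 : v * (4 * θ ^ 3 / (c.r - 2) ^ 2) + v * (4 * θ ^ 3 / c.r ^ 2)
      = (v - 1) * (θ ^ 2 * (4 / ((c.r : ℝ) - 2) ^ 2 + 4 / (c.r : ℝ) ^ 2)) := by
    have : v - 1 = v * θ := by rw [hθ]; field_simp
    rw [this]; field_simp
  have h8 : (v - 1) * (θ ^ 2 * (4 / ((c.r : ℝ) - 2) ^ 2 + 4 / (c.r : ℝ) ^ 2))
      ≤ (v - 1) * c.A x s := by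
    rw [← h7]; linarith
  exact le_of_mul_le_mul_left h8 (by linarith)

end

end Pool.Agent.H16.BS2
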