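import Pool.Agent.H16.BS2.Low

set_option autoImplicit false

namespace Pool.Agent.H16.BS2
open Matrix Finset Pool.Agent.H856R2

variable {V B : Type*} [Fintype V] [DecidableEq V] [Fintype B] [DecidableEq B]

section
variable (c : Ctx V B)

/-- quantities at a block `t` through `s` -/
lemma blk_data (hk : c.k = 2) (x s : V) (hmax : ∀ s', c.A x s' ≤ c.A x s) (t : B)
    (ht : 1 ≤ c.n s t) :
    0 ≤ 2 * c.q (du x s) (c.zt s t) - c.q (c.zt s t) (c.zt s t)
    ∧ 0 ≤ c.p (du x s) (c.zt s t)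
    ∧ c.p (c.zt s t) (c.zt s t) ^ 2 ≤ 2 * c.q (c.zt s t) (c.zt s t) := by
  obtain ⟨s', hs'⟩ := blk c hk s t ht
  have hz := blk_zt c hk s t s' hs'
  refine ⟨?_, ?_, ?_⟩
  · have h1 : du x s - c.zt s t = (du x s' : V → ℝ) := by
      rw [hz]; unfold du; abel
    have h2 : c.A x s' = c.A x s - 2 * c.q (du x s) (c.zt s t) + c.q (c.zt s t) (c.zt s t) := by
      unfold Ctx.A
      rw [← h1, form_sub c.q c.qs]
    have := hmax s'
    linarith
  · rw [hz]
    have h : c.p (du x s) (du s' s) = (c.P *ᵥ du x s) s' - (c.P *ᵥ du x s) s := by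
      rw [← c.p_single, ← c.p_single, ← map_sub]; rfl
    rw [h]
    have := mp' c (by omega) x s s'
    linarith
  · have h := c.p_sq_le (c.zt s t)
    have h2 : eu (c.zt s t) (c.zt s t) ≤ 2 := by
      rw [hz]
      rcases eq_or_ne s' s with h | h
      · subst h
        have : (du s' s' : V → ℝ) = 0 := by simp [du]
        rw [this]; simp
      · rw [Ctx.eu_du s' s h]
    have h3 := mul_le_mul_of_nonneg_right h2 (c.qp (c.zt s t))
    linarith

/-- the interchange inequality at a block `t` through `s` -/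
lemma blk_sw (hk : c.k = 2) (x s : V) (y0 : B) (hy0 : c.n x y0 = 2) (t : B)
    (ht : 1 ≤ c.n s t) :
    4 * c.A x s - 4 * c.q (du x s) (c.zt s t)
      ≤ c.R x s * c.q (c.zt s t) (c.zt s t) + c.A x s * c.p (c.zt s t) (c.zt s t)
        - 2 * (c.p (du x s) (c.zt s t) * c.q (du x s) (c.zt s t)) := by
  have hx0 : c.zt x y0 = 0 := by
    obtain ⟨x', hx'⟩ := blk c hk x y0 (by omega)
    rw [blk_zt c hk x y0 x' hx']
    have h := hx' x
    rw [hy0, if_pos rfl] at h
    have : x = x' := by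
      by_contra hcon
      rw [if_neg hcon] at h; omega
    subst this
    simp [du]
  have h := c.sw x s y0 t (by omega) ht
  have hz := c.z_shift x s y0 t
  rw [hx0, zero_sub, hk] at hz
  have hz2 : cl c.n y0 - cl c.n t - du x s = (du x s : V → ℝ) - c.zt s t := by
    have : (-(((2 : ℕ) : ℝ) - 1)) = -1 := by norm_num
    rw [this] at hz
    have h3 : cl c.n y0 - cl c.n t - du x s
      = (cl c.n y0 - cl c.n t - du x s + (-1 : ℝ) • du x s) + du x s := by
      rw [neg_one_smul]; abel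
    rw [h3, ← hz]; abel
  rw [hz2, hk] at h
  unfold Phi at h
  have e1 : c.q (du x s) (du x s - c.zt s t) = c.A x s - c.q (du x s) (c.zt s t) := by
    rw [map_sub]; rfl
  have e2 : c.p (du x s) (du x s - c.zt s t) = c.R x s - c.p (du x s) (c.zt s t) := by
    rw [map_sub]; rfl
  have e3 : c.q (du x s - c.zt s t) (du x s - c.zt s t)
      = c.A x s - 2 * c.q (du x s) (c.zt s t) + c.q (c.zt s t) (c.zt s t) := by
    rw [form_sub c.q c.qs]; rfl
  have e4 : c.p (du x s - c.zt s t) (du x s - c.zt s t)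
      = c.R x s - 2 * c.p (du x s) (c.zt s t) + c.p (c.zt s t) (c.zt s t) := by
    rw [form_sub c.p c.ps]; rfl
  rw [e1, e2, e3, e4, c.R_def, c.A_def] at h
  push_cast at h
  nlinarith

/-- the sum of the resistances of the blocks through `s` -/
noncomputable def mm (s : V) : ℝ := c.Fp s

lemma mm_nonneg (s : V) : 0 ≤ mm c s := c.Fp_nonneg s

lemma mm_le (hk : c.k = 2) (s : V) : mm c s ≤ 2 * c.r := by
  have h := c.Fp_le s
  rw [hk] at h
  push_cast at h
  unfold mm
  linarith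

lemma sum_q_zt' (hk : c.k = 2) (x s : V) : ∑ t, (c.n s t : ℝ) * c.q (du x s) (c.zt s t)
    = 2 * (-(c.P *ᵥ du x s) s) := by
  rw [sum_q_zt, hk, c.p_single]; push_cast; ring

lemma sum_D_nonneg (hk : c.k = 2) (x s : V) (hmax : ∀ s', c.A x s' ≤ c.A x s) :
    0 ≤ ∑ t, (c.n s t : ℝ) * (2 * c.q (du x s) (c.zt s t) - c.q (c.zt s t) (c.zt s t)) := by
  refine Finset.sum_nonneg fun t _ => ?_
  rcases Nat.eq_zero_or_pos (c.n s t) with h | h
  · simp [h]
  · exact mul_nonneg (Nat.cast_nonneg _) (blk_data c hk x s hmax t h).1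

lemma mm_sq (hk : c.k = 2) (x s : V) (hmax : ∀ s', c.A x s' ≤ c.A x s) :
    mm c s ^ 2 ≤ 8 * c.r * (-(c.P *ᵥ du x s) s) := by
  have h1 := wcs Finset.univ (fun t => (c.n s t : ℝ)) (fun t => c.p (c.zt s t) (c.zt s t))
    (fun t _ => Nat.cast_nonneg _)
  rw [c.rowR] at h1
  have h2 : ∑ t, (c.n s t : ℝ) * c.p (c.zt s t) (c.zt s t) ^ 2
      ≤ ∑ t, (c.n s t : ℝ) * (2 * c.q (c.zt s t) (c.zt s t)) := by
    refine Finset.sum_le_sum fun t _ => ?_
    rcases Nat.eq_zero_or_pos (c.n s t) with h | h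
    · simp [h]
    · exact mul_le_mul_of_nonneg_left (blk_data c hk x s hmax t h).2.2 (Nat.cast_nonneg _)
  have h3 := sum_D_nonneg c hk x s hmax
  have h4 := sum_q_zt' c hk x s
  have e1 : ∑ t, (c.n s t : ℝ) * (2 * c.q (du x s) (c.zt s t) - c.q (c.zt s t) (c.zt s t))
      = 2 * ∑ t, (c.n s t : ℝ) * c.q (du x s) (c.zt s t)
        - ∑ t, (c.n s t : ℝ) * c.q (c.zt s t) (c.zt s t) := by
    rw [Finset.mul_sum, ← Finset.sum_sub_distrib]
    refine Finset.sum_congr rfl fun t _ => by ring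
  have e2 : ∑ t, (c.n s t : ℝ) * (2 * c.q (c.zt s t) (c.zt s t))
      = 2 * ∑ t, (c.n s t : ℝ) * c.q (c.zt s t) (c.zt s t) := by
    rw [Finset.mul_sum]
    refine Finset.sum_congr rfl fun t _ => by ring
  rw [e2] at h2
  rw [e1, h4] at h3
  have h5 : ∑ t, (c.n s t : ℝ) * c.p (c.zt s t) (c.zt s t) ^ 2
      ≤ 8 * (-(c.P *ᵥ du x s) s) := by linarith
  have h6 := mul_le_mul_of_nonneg_left h5 (Nat.cast_nonneg (α := ℝ) c.r)
  have h7 : mm c s = ∑ t, (c.n s t : ℝ) * c.p (c.zt s t) (c.zt s t) := rfl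
  rw [h7]
  linarith

/-- the main inequality -/
lemma main_ineq (hk : c.k = 2) (x s : V) (y0 : B) (hy0 : c.n x y0 = 2)
    (hmax : ∀ s', c.A x s' ≤ c.A x s) :
    4 * c.r * c.A x s ≤ mm c s * c.A x s + 4 * (-(c.P *ᵥ du x s) s) * (c.R x s + 2) ∧
    ((∃ t, 1 ≤ c.n s t ∧ 1 ≤ c.n x t) → x ≠ s →
    4 * c.r * c.A x s + 3 * c.R x s * c.A x s
      ≤ mm c s * c.A x s + 4 * (-(c.P *ᵥ du x s) s) * (c.R x s + 2)) := by
  set α : ℝ := -(c.P *ᵥ du x s) s with hα
  have hR := c.R_nonneg x s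
  -- the summand
  set E : B → ℝ := fun t => c.R x s * (2 * c.q (du x s) (c.zt s t) - c.q (c.zt s t) (c.zt s t))
      + 2 * (c.p (du x s) (c.zt s t) * c.q (du x s) (c.zt s t)) with hE
  have hE0 : ∀ t, 1 ≤ c.n s t → 0 ≤ E t := by
    intro t ht
    have hd := blk_data c hk x s hmax t ht
    have hq : 0 ≤ c.q (du x s) (c.zt s t) := by
      have := c.qp (c.zt s t); linarith [hd.1]
    exact add_nonneg (mul_nonneg hR hd.1) (mul_nonneg (by norm_num) (mul_nonneg hd.2.1 hq))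
  have h1 : ∀ t ∈ (Finset.univ : Finset B), (c.n s t : ℝ) * (4 * c.A x s + E t)
      ≤ (c.n s t : ℝ) * ((2 * c.R x s + 4) * c.q (du x s) (c.zt s t)
        + c.A x s * c.p (c.zt s t) (c.zt s t)) := by
    intro t _
    rcases Nat.eq_zero_or_pos (c.n s t) with h | h
    · simp [h]
    · refine mul_le_mul_of_nonneg_left ?_ (Nat.cast_nonneg _)
      have := blk_sw c hk x s y0 hy0 t h
      simp only [hE]
      nlinarith
  have h2 := Finset.sum_le_sum h1
  have e1 : ∑ t, (c.n s t : ℝ) * (4 * c.A x s + E t)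
      = 4 * c.r * c.A x s + ∑ t, (c.n s t : ℝ) * E t := by
    simp only [mul_add, Finset.sum_add_distrib, ← Finset.sum_mul, c.rowR]; ring
  have e2 : ∑ t, (c.n s t : ℝ) * ((2 * c.R x s + 4) * c.q (du x s) (c.zt s t)
        + c.A x s * c.p (c.zt s t) (c.zt s t))
      = 4 * α * (c.R x s + 2) + mm c s * c.A x s := by
    have h7 : mm c s = ∑ t, (c.n s t : ℝ) * c.p (c.zt s t) (c.zt s t) := rfl
    have h8 := sum_q_zt' c hk x s
    have : ∀ t, (c.n s t : ℝ) * ((2 * c.R x s + 4) * c.q (du x s) (c.zt s t)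
        + c.A x s * c.p (c.zt s t) (c.zt s t))
        = (2 * c.R x s + 4) * ((c.n s t : ℝ) * c.q (du x s) (c.zt s t))
          + c.A x s * ((c.n s t : ℝ) * c.p (c.zt s t) (c.zt s t)) := by intro t; ring
    simp only [this, Finset.sum_add_distrib, ← Finset.mul_sum]
    rw [h8, ← h7]; ring
  rw [e1, e2] at h2
  have hnE : ∀ t ∈ (Finset.univ : Finset B), 0 ≤ (c.n s t : ℝ) * E t := by
    intro t _
    rcases Nat.eq_zero_or_pos (c.n s t) with h | h
    · simp [h]
    · exact mul_nonneg (Nat.cast_nonneg _) (hE0 t h)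
  refine ⟨?_, ?_⟩
  · have := Finset.sum_nonneg hnE
    linarith
  · rintro ⟨t, ht1, ht2⟩ hxs
    have h3 := Finset.single_le_sum hnE (Finset.mem_univ t)
    have hEt : E t = 3 * c.R x s * c.A x s := by
      obtain ⟨s', hs'⟩ := blk c hk s t ht1
      have h4 := hs' x
      rw [if_neg hxs] at h4
      have hxs' : x = s' := by
        by_contra hcon
        rw [if_neg hcon] at h4; omega
      subst hxs'
      have hz := blk_zt c hk s t x hs'
      simp only [hE]
      rw [hz, c.A_def, c.R_def]; ring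
    have hn : (1 : ℝ) ≤ c.n s t := by exact_mod_cast ht1
    have h5 : E t ≤ (c.n s t : ℝ) * E t := by
      have := mul_le_mul_of_nonneg_right hn (hE0 t ht1)
      linarith
    rw [hEt] at h5
    rw [hEt] at h3
    linarith

end

end Pool.Agent.H16.BS2
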